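import Pool.Agent.Helper3K9.ZF.Stm

/-!
# UNQ, CMP, BEZ
-/

set_option autoImplicit false

open CategoryTheory Limits MonoidalCategory Polynomial

universe v u w w'

namespace Pool.Agent.Helper3K9.ZF

open Pool.Agent.Y112.SR

theorem unq : S_UNQ.{w} := by
  intro K _ _ S g h hg hh h1 h2
  have hS : PowerSeries.coeff 0 S = 0 := by
    have e := congrArg (PowerSeries.coeff 0) h1
    rw [PowerSeries.coeff_zero_X_mul, PowerSeries.coeff_mul, Finset.Nat.antidiagonal_zero,
      Finset.sum_singleton, hg, one_mul] at e
    exact e.symm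
  have key : ∀ n, PowerSeries.coeff n g = PowerSeries.coeff n h := by
    intro n
    induction n using Nat.strong_induction_on with
    | _ n ih =>
      rcases Nat.eq_zero_or_pos n with h0 | h0
      · subst h0; rw [hg, hh]
      · obtain ⟨m, rfl⟩ : ∃ m, n = m + 1 := ⟨n - 1, by omega⟩
        have e1 := congrArg (PowerSeries.coeff (m + 1)) h1
        have e2 := congrArg (PowerSeries.coeff (m + 1)) h2
        rw [PowerSeries.coeff_succ_X_mul, PowerSeries.coeff_derivative,
          PowerSeries.coeff_mul] at e1 e2
        have e3 : ∑ p ∈ Finset.HasAntidiagonal.antidiagonal (m + 1), PowerSeries.coeff p.1 g *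
            PowerSeries.coeff p.2 S = ∑ p ∈ Finset.HasAntidiagonal.antidiagonal (m + 1),
              PowerSeries.coeff p.1 h * PowerSeries.coeff p.2 S := by
          apply Finset.sum_congr rfl
          intro p hp
          rw [Finset.HasAntidiagonal.mem_antidiagonal] at hp
          rcases Nat.lt_or_ge p.1 (m + 1) with h3 | h3
          · rw [ih p.1 h3]
          · have h4 : p.2 = 0 := by omega
            rw [h4, hS, mul_zero, mul_zero]
        rw [e3, ← e2] at e1
        have h5 : ((m : K) + 1) ≠ 0 := by exact_mod_cast Nat.succ_ne_zero m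
        exact mul_right_cancel₀ h5 e1
  exact PowerSeries.ext key

namespace BezL

/-- Two series with constant term `1` and the same logarithmic derivative. -/
lemma eq_of_wronskian {K : Type w} [Field K] [CharZero K] {g h : PowerSeries K}
    (hU : S_UNQ.{w}) (hg : PowerSeries.coeff 0 g = 1) (hh : PowerSeries.coeff 0 h = 1)
    (e : PowerSeries.X * (PowerSeries.derivative K g * h - g * PowerSeries.derivative K h) = 0) :
    g = h := by
  have hg0 : g * g⁻¹ = 1 := PowerSeries.mul_inv_cancel g (by
    rw [← PowerSeries.coeff_zero_eq_constantCoeff_apply, hg]; exact one_ne_zero)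
  refine hU K (PowerSeries.X * PowerSeries.derivative K g * g⁻¹) g h hg hh ?_ ?_
  · calc PowerSeries.X * PowerSeries.derivative K g =
        (g * g⁻¹) * (PowerSeries.X * PowerSeries.derivative K g) := by rw [hg0, one_mul]
      _ = _ := by ring
  · have e1 : g * (PowerSeries.X * PowerSeries.derivative K h) =
        g * (h * (PowerSeries.X * PowerSeries.derivative K g * g⁻¹)) := by
      calc g * (PowerSeries.X * PowerSeries.derivative K h) =
          PowerSeries.X * (PowerSeries.derivative K g * h) -
            PowerSeries.X * (PowerSeries.derivative K g * h - g * PowerSeries.derivative K h) := by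
              ring
        _ = (g * g⁻¹) * (PowerSeries.X * (PowerSeries.derivative K g * h)) := by
              rw [e, sub_zero, hg0, one_mul]
        _ = _ := by ring
    have hg1 : g ≠ 0 := by
      rintro rfl
      rw [map_zero] at hg
      exact zero_ne_one hg
    exact mul_left_cancel₀ hg1 e1

end BezL

open BezL

theorem cmp : S_LGD.{w} → S_UNQ.{w} → S_CMP.{w} := by
  intro hL hU K _ _ V0 V1 _ _ _ _ _ _ T0 T1 P Q hz hPQ
  obtain ⟨hP0, hQ0, hz⟩ := hz
  obtain ⟨a0, b0⟩ := hL K V0 T0
  obtain ⟨a1, b1⟩ := hL K V1 T1
  set p0 := T0.charpoly.reverse with hp0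
  set p1 := T1.charpoly.reverse with hp1
  set p := P.map (algebraMap ℚ K) with hp
  set q := Q.map (algebraMap ℚ K) with hq
  have hcop : IsCoprime p q := hPQ.map (Polynomial.mapRingHom (algebraMap ℚ K))
  set S0 : PowerSeries K := PowerSeries.mk fun n => if n = 0 then 0 else
    LinearMap.trace K V0 (T0 ^ n) with hS0
  set S1 : PowerSeries K := PowerSeries.mk fun n => if n = 0 then 0 else
    LinearMap.trace K V1 (T1 ^ n) with hS1
  have hSS : (PowerSeries.mk fun n => if n = 0 then 0 else
      (fun n => LinearMap.trace K V0 (T0 ^ n) - LinearMap.trace K V1 (T1 ^ n)) n) = S0 - S1 := by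
    ext n
    rw [map_sub, hS0, hS1, PowerSeries.coeff_mk, PowerSeries.coeff_mk, PowerSeries.coeff_mk]
    split_ifs <;> simp
  have hz' : PowerSeries.X * (PowerSeries.derivative K (p : PowerSeries K) * (q : PowerSeries K) -
      (p : PowerSeries K) * PowerSeries.derivative K (q : PowerSeries K)) =
      (p : PowerSeries K) * (q : PowerSeries K) * (S0 - S1) := by
    rw [hSS] at hz
    rw [Polynomial.map_mul, Polynomial.map_sub, Polynomial.map_mul, Polynomial.map_mul,
      Polynomial.map_mul, Polynomial.map_X, ← Polynomial.derivative_map,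
      ← Polynomial.derivative_map, ← hp, ← hq] at hz
    rw [PowerSeries.derivative_coe, PowerSeries.derivative_coe]
    have e : (((X * (derivative p * q - p * derivative q) : K[X]) : K[X]) : PowerSeries K) =
        PowerSeries.X * (((derivative p : K[X]) : PowerSeries K) * (q : PowerSeries K) -
          (p : PowerSeries K) * ((derivative q : K[X]) : PowerSeries K)) := by
      push_cast
      rfl
    rw [← e, hz]
    push_cast
    rfl
  have c0 : PowerSeries.X * PowerSeries.derivative K (p0 : PowerSeries K) =
      - (p0 : PowerSeries K) * S0 := by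
    rw [PowerSeries.derivative_coe, ← b0]
    push_cast
    rfl
  have c1 : PowerSeries.X * PowerSeries.derivative K (p1 : PowerSeries K) =
      - (p1 : PowerSeries K) * S1 := by
    rw [PowerSeries.derivative_coe, ← b1]
    push_cast
    rfl
  have main : ((p * p0 : K[X]) : PowerSeries K) = ((q * p1 : K[X]) : PowerSeries K) := by
    apply eq_of_wronskian hU
    · rw [Polynomial.coeff_coe, Polynomial.mul_coeff_zero, a0, hp, Polynomial.coeff_map, hP0,
        map_one, one_mul]
    · rw [Polynomial.coeff_coe, Polynomial.mul_coeff_zero, a1, hq, Polynomial.coeff_map, hQ0,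
        map_one, one_mul]
    · rw [Polynomial.coe_mul, Polynomial.coe_mul, Derivation.leibniz, Derivation.leibniz]
      simp only [smul_eq_mul]
      set p' := PowerSeries.derivative K (p : PowerSeries K)
      set q' := PowerSeries.derivative K (q : PowerSeries K)
      set p0' := PowerSeries.derivative K (p0 : PowerSeries K)
      set p1' := PowerSeries.derivative K (p1 : PowerSeries K)
      linear_combination ((p0 : PowerSeries K) * (p1 : PowerSeries K)) * hz' +
        ((p : PowerSeries K) * (q : PowerSeries K) * (p1 : PowerSeries K)) * c0 -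
        ((p : PowerSeries K) * (q : PowerSeries K) * (p0 : PowerSeries K)) * c1
  have main' : p * p0 = q * p1 := Polynomial.coe_injective K main
  constructor
  · have : q ∣ p * p0 := ⟨p1, main'⟩
    exact hcop.symm.dvd_of_dvd_mul_left this
  · have : p ∣ q * p1 := ⟨p0, main'.symm⟩
    exact hcop.dvd_of_dvd_mul_left this

namespace BezL

lemma reflect_reflect {K : Type*} [Semiring K] (N : ℕ) (f : K[X]) :
    reflect N (reflect N f) = f := by
  ext i
  rw [coeff_reflect, coeff_reflect, revAt_invol]

/-- Reverses of coprime polynomials with nonzero constant terms are coprime. -/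
lemma coprime_reverse {K : Type*} [Field K] {P Q : K[X]} (hP : P ≠ 0)
    (h : IsCoprime P Q) : IsCoprime P.reverse Q.reverse := by
  obtain ⟨a, b, hab⟩ := h
  set N := a.natDegree + b.natDegree with hN
  have h1 : reflect (N + P.natDegree + Q.natDegree) (a * P + b * Q) =
      X ^ (N + P.natDegree + Q.natDegree) := by
    rw [hab]
    have := reflect_C (R := K) 1 (N + P.natDegree + Q.natDegree)
    rwa [map_one, one_mul] at this
  rw [reflect_add] at h1
  have h2 : reflect (N + P.natDegree + Q.natDegree) (a * P) =
      reflect (N + Q.natDegree) a * P.reverse := by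
    rw [show N + P.natDegree + Q.natDegree = (N + Q.natDegree) + P.natDegree by ring]
    exact reflect_mul a P (by omega) le_rfl
  have h3 : reflect (N + P.natDegree + Q.natDegree) (b * Q) =
      reflect (N + P.natDegree) b * Q.reverse :=
    reflect_mul b Q (by omega) le_rfl
  rw [h2, h3] at h1
  have h4 : IsCoprime P.reverse (X ^ (N + P.natDegree + Q.natDegree)) := by
    apply IsCoprime.pow_right
    have h5 : P.reverse.coeff 0 ≠ 0 := by
      rw [coeff_zero_reverse]; exact leadingCoeff_ne_zero.2 hP
    have h6 : IsCoprime (X : K[X]) P.reverse := by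
      rw [(Polynomial.irreducible_X).coprime_iff_not_dvd, X_dvd_iff]
      exact h5
    exact h6.symm
  obtain ⟨u, v, huv⟩ := h4
  refine ⟨u + v * reflect (N + Q.natDegree) a, v * reflect (N + P.natDegree) b, ?_⟩
  linear_combination huv + v * h1

/-- A reversed characteristic polynomial. -/
lemma charpoly_eq {K : Type w} [Field K] [CharZero K] (V : Type w) [AddCommGroup V] [Module K V]
    [Module.Finite K V] (T : Module.End K V) (Q : ℚ[X]) (hQ0 : Q.coeff 0 = 1)
    (hd : Q.map (algebraMap ℚ K) ∣ T.charpoly.reverse)
    (hn : Q.natDegree = Module.finrank K V) : T.charpoly = (Q.reverse).map (algebraMap ℚ K) := by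
  obtain ⟨c, hc⟩ := hd
  have hT : T.charpoly.reverse.coeff 0 = 1 := by
    rw [coeff_zero_reverse]; exact LinearMap.charpoly_monic T
  have hnd : T.charpoly.natDegree = Module.finrank K V := LinearMap.charpoly_natDegree T
  have hq : (Q.map (algebraMap ℚ K)).natDegree = Module.finrank K V := by
    rw [Polynomial.natDegree_map, hn]
  have hr0 : T.charpoly.reverse ≠ 0 := by
    intro h
    rw [h, coeff_zero] at hT
    exact zero_ne_one hT
  have hc0 : c ≠ 0 := by
    rintro rfl
    rw [mul_zero] at hc
    exact hr0 hc
  have hq0 : Q.map (algebraMap ℚ K) ≠ 0 := by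
    intro h
    rw [h, zero_mul] at hc
    exact hr0 hc
  have h1 := reverse_natDegree_le T.charpoly
  have h2 : T.charpoly.reverse.natDegree = (Q.map (algebraMap ℚ K)).natDegree + c.natDegree := by
    rw [hc, natDegree_mul hq0 hc0]
  have h3 : c.natDegree = 0 := by omega
  rw [Polynomial.natDegree_eq_zero] at h3
  obtain ⟨x, rfl⟩ := h3
  have h4 : x = 1 := by
    have := congrArg (fun f => f.coeff 0) hc
    simp only [mul_coeff_zero, coeff_C_zero, coeff_map, hQ0, map_one, one_mul] at this
    rw [← this, hT]
  subst h4
  rw [map_one, mul_one] at hc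
  have h5 : T.charpoly = reflect T.charpoly.natDegree T.charpoly.reverse :=
    (reflect_reflect _ _).symm
  rw [h5, hc, hnd, ← hn, reverse, reflect_map]

end BezL

theorem bez : S_CMP.{w} → S_BEZ.{w} := by
  intro hC K _ _ V0 V1 _ _ _ _ _ _ T0 T1 P Q hz hPQ hP hQ
  obtain ⟨d0, d1⟩ := hC K V0 V1 T0 T1 P Q hz hPQ
  obtain ⟨hP0, hQ0, -⟩ := hz
  have e0 := charpoly_eq V0 T0 Q hQ0 d0 hQ
  have e1 := charpoly_eq V1 T1 P hP0 d1 hP
  have hPne : P ≠ 0 := by
    rintro rfl
    rw [coeff_zero] at hP0
    exact zero_ne_one hP0
  obtain ⟨a, b, hab⟩ := coprime_reverse hPne hPQ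
  refine ⟨a * P.reverse, ?_, ?_⟩
  · have h1 : a * P.reverse = 1 - b * Q.reverse := by linear_combination hab
    rw [h1, Polynomial.map_sub, Polynomial.map_one, Polynomial.map_mul, ← e0, map_sub, map_one,
      map_mul, LinearMap.aeval_self_charpoly, mul_zero, sub_zero]
  · rw [Polynomial.map_mul, ← e1, map_mul, LinearMap.aeval_self_charpoly, mul_zero]

end Pool.Agent.Helper3K9.ZF
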