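import Pool.Agent.Helper3K9.ZF.Stm

/-!
# GEN: integral coefficients in general position
-/

set_option autoImplicit false

open Polynomial

universe w

namespace Pool.Agent.Helper3K9.ZF

namespace GenL

variable {K : Type w} [Field K] {r : ℕ} {ι : Type} [Fintype ι] [DecidableEq ι]

/-- the matrix at a point -/
noncomputable def pt (M : Fin r → Matrix ι ι K) (x : Option (Fin r) → K) : Matrix ι ι K :=
  ∑ i, x (some i) • M i + x none • 1

/-- the generic matrix -/
noncomputable def gn (M : Fin r → Matrix ι ι K) :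
    Matrix ι ι (MvPolynomial (Option (Fin r)) K) :=
  ∑ i, (MvPolynomial.X (some i) : MvPolynomial (Option (Fin r)) K) • (M i).map MvPolynomial.C +
    (MvPolynomial.X none : MvPolynomial (Option (Fin r)) K) • 1

omit [Fintype ι] in
theorem gn_map (M : Fin r → Matrix ι ι K) (x : Option (Fin r) → K) :
    (gn M).map (MvPolynomial.eval x) = pt M x := by
  refine Matrix.ext fun a b => ?_
  unfold gn pt
  rw [Matrix.map_apply, Matrix.add_apply, Matrix.add_apply, map_add, Matrix.sum_apply,
    Matrix.sum_apply, map_sum]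
  congr 1
  · refine Finset.sum_congr rfl fun i _ => ?_
    rw [Matrix.smul_apply, Matrix.smul_apply, smul_eq_mul, smul_eq_mul, map_mul,
      MvPolynomial.eval_X, Matrix.map_apply, MvPolynomial.eval_C]
  · rw [Matrix.smul_apply, Matrix.smul_apply, smul_eq_mul, smul_eq_mul, map_mul,
      MvPolynomial.eval_X, Matrix.one_apply, Matrix.one_apply]
    congr 1
    split_ifs
    · rw [map_one]
    · rw [map_zero]

theorem eval_det (M : Fin r → Matrix ι ι K) (x : Option (Fin r) → K) :
    MvPolynomial.eval x (gn M).det = (pt M x).det := by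
  rw [← gn_map, RingHom.map_det]
  rfl

theorem charpoly_pt (M : Fin r → Matrix ι ι K) (x : Option (Fin r) → K) :
    (gn M).charpoly.map (MvPolynomial.eval x) = (pt M x).charpoly := by
  rw [← gn_map, Matrix.charpoly_map]

variable {κ : Type} [Fintype κ] [DecidableEq κ]

theorem eval_res (M : Fin r → Matrix ι ι K) (M' : Fin r → Matrix κ κ K)
    (x : Option (Fin r) → K) :
    MvPolynomial.eval x (Polynomial.resultant (gn M).charpoly (gn M').charpoly
      (Fintype.card ι) (Fintype.card κ)) =
      Polynomial.resultant (pt M x).charpoly (pt M' x).charpoly := by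
  rw [← Polynomial.resultant_map_map, charpoly_pt, charpoly_pt,
    Matrix.charpoly_natDegree_eq_dim, Matrix.charpoly_natDegree_eq_dim]

theorem det_gn_ne (M : Fin r → Matrix ι ι K) : (gn M).det ≠ 0 := by
  intro h
  have h1 := eval_det M (fun o => if o = none then 1 else 0)
  rw [h, map_zero] at h1
  have h2 : pt M (fun o => if o = none then 1 else 0) = 1 := by
    unfold pt
    simp
  rw [h2, Matrix.det_one] at h1
  exact zero_ne_one h1

/-- the statement for matrices -/
theorem main [CharZero K] (M : Fin r → Matrix ι ι K) (M' : Fin r → Matrix κ κ K) (c : Fin r → K)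
    (h : IsCoprime (∑ i, c i • M i).charpoly (∑ i, c i • M' i).charpoly) :
    ∃ (n : Fin r → ℤ) (N : ℤ),
      IsCoprime (∑ i, (n i : K) • M i + (N : K) • 1).charpoly
        (∑ i, (n i : K) • M' i + (N : K) • 1).charpoly ∧
      (∑ i, (n i : K) • M i + (N : K) • (1 : Matrix ι ι K)).det ≠ 0 ∧
      (∑ i, (n i : K) • M' i + (N : K) • (1 : Matrix κ κ K)).det ≠ 0 := by
  set F : MvPolynomial (Option (Fin r)) K :=
    Polynomial.resultant (gn M).charpoly (gn M').charpoly (Fintype.card ι) (Fintype.card κ) *
      ((gn M).det * (gn M').det) with hF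
  have hres : Polynomial.resultant (gn M).charpoly (gn M').charpoly
      (Fintype.card ι) (Fintype.card κ) ≠ 0 := by
    intro h0
    have h1 := eval_res M M' (fun o => o.elim 0 c)
    rw [h0, map_zero] at h1
    have e1 : pt M (fun o => o.elim 0 c) = ∑ i, c i • M i := by unfold pt; simp
    have e2 : pt M' (fun o => o.elim 0 c) = ∑ i, c i • M' i := by unfold pt; simp
    rw [e1, e2] at h1
    have h2 := (Polynomial.isUnit_resultant_iff_isCoprime
      (Matrix.charpoly_monic (∑ i, c i • M i))).2 h
    rw [← h1] at h2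
    exact not_isUnit_zero h2
  have hF0 : F ≠ 0 := mul_ne_zero hres (mul_ne_zero (det_gn_ne M) (det_gn_ne M'))
  have hex : ∃ x ∈ Set.pi Set.univ (fun _ : Option (Fin r) => Set.range ((↑) : ℤ → K)),
      MvPolynomial.eval x F ≠ 0 := by
    by_contra hcon
    push Not at hcon
    refine hF0 (MvPolynomial.funext_set (fun _ : Option (Fin r) => Set.range ((↑) : ℤ → K))
      (fun _ => Set.infinite_range_of_injective Int.cast_injective) ?_)
    intro x hx
    rw [hcon x hx, map_zero]
  obtain ⟨x, hx, hxF⟩ := hex
  choose n hn using fun o => hx o (Set.mem_univ o)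
  refine ⟨fun i => n (some i), n none, ?_⟩
  rw [hF, map_mul, map_mul, eval_res, eval_det, eval_det] at hxF
  have e1 : pt M x = ∑ i, (n (some i) : K) • M i + (n none : K) • 1 := by
    unfold pt
    rw [hn none]
    congr 1
    exact Finset.sum_congr rfl fun i _ => by rw [hn (some i)]
  have e2 : pt M' x = ∑ i, (n (some i) : K) • M' i + (n none : K) • 1 := by
    unfold pt
    rw [hn none]
    congr 1
    exact Finset.sum_congr rfl fun i _ => by rw [hn (some i)]
  rw [← e1, ← e2]
  refine ⟨?_, ?_, ?_⟩
  · exact (Polynomial.isUnit_resultant_iff_isCoprime (Matrix.charpoly_monic (pt M x))).1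
      (IsUnit.mk0 _ (left_ne_zero_of_mul hxF))
  · exact left_ne_zero_of_mul (right_ne_zero_of_mul hxF)
  · exact right_ne_zero_of_mul (right_ne_zero_of_mul hxF)

/-- matrices of combinations -/
theorem toMatrix_comb {V : Type w} [AddCommGroup V] [Module K V] (b : Module.Basis ι K V)
    (A : Fin r → Module.End K V) (n : Fin r → K) (N : K) :
    LinearMap.toMatrix b b (∑ i, n i • A i + N • (1 : Module.End K V)) =
      ∑ i, n i • LinearMap.toMatrix b b (A i) + N • 1 := by
  rw [map_add, map_sum, map_smul]
  congr 1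
  · exact Finset.sum_congr rfl fun i _ => by rw [map_smul]
  · rw [LinearMap.toMatrix_one]

end GenL

/-- [GEN] -/
theorem gen : S_GEN.{w} := by
  intro K _ _ V0 V1 _ _ _ _ _ _ r A0 A1 c h
  classical
  let b0 := Module.finBasis K V0
  let b1 := Module.finBasis K V1
  have h1 : IsCoprime (∑ i, c i • LinearMap.toMatrix b0 b0 (A0 i)).charpoly
      (∑ i, c i • LinearMap.toMatrix b1 b1 (A1 i)).charpoly := by
    have e0 : LinearMap.toMatrix b0 b0 (∑ i, c i • A0 i) =
        ∑ i, c i • LinearMap.toMatrix b0 b0 (A0 i) := by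
      rw [map_sum]
      exact Finset.sum_congr rfl fun i _ => by rw [map_smul]
    have e1 : LinearMap.toMatrix b1 b1 (∑ i, c i • A1 i) =
        ∑ i, c i • LinearMap.toMatrix b1 b1 (A1 i) := by
      rw [map_sum]
      exact Finset.sum_congr rfl fun i _ => by rw [map_smul]
    rw [← e0, ← e1, LinearMap.charpoly_toMatrix, LinearMap.charpoly_toMatrix]
    exact h
  obtain ⟨n, N, h2, h3, h4⟩ := GenL.main _ _ c h1
  refine ⟨n, N, ?_, ?_, ?_⟩
  · rw [← GenL.toMatrix_comb b0, ← GenL.toMatrix_comb b1, LinearMap.charpoly_toMatrix,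
      LinearMap.charpoly_toMatrix] at h2
    exact h2
  · rw [← GenL.toMatrix_comb b0, LinearMap.det_toMatrix] at h3
    exact h3
  · rw [← GenL.toMatrix_comb b1, LinearMap.det_toMatrix] at h4
    exact h4

end Pool.Agent.Helper3K9.ZF
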