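import Pool.Agent.Helper3K9.ZF.Stm

/-!
# RAT: a quotient of coprime polynomials which is a rational power series
-/

set_option autoImplicit false

open Polynomial

universe w

namespace Pool.Agent.Helper3K9.ZF

namespace RatL

/-- a `ℚ`-linear retraction of the prime field -/
theorem exists_retract (K : Type w) [Field K] [CharZero K] :
    ∃ π : K →ₗ[ℚ] ℚ, π 1 = 1 := by
  have hinj : Function.Injective (Algebra.linearMap ℚ K) := (algebraMap ℚ K).injective
  obtain ⟨π, hπ⟩ := LinearMap.exists_leftInverse_of_injective (Algebra.linearMap ℚ K)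
    (LinearMap.ker_eq_bot.2 hinj)
  refine ⟨π, ?_⟩
  have := LinearMap.congr_fun hπ 1
  simpa using this

variable {K : Type w} [Field K] [CharZero K]

/-- the linear map applied to the coefficients -/
noncomputable def pc (π : K →ₗ[ℚ] ℚ) (P : K[X]) : ℚ[X] :=
  ∑ i ∈ Finset.range (P.natDegree + 1), Polynomial.monomial i (π (P.coeff i))

theorem coeff_pc (π : K →ₗ[ℚ] ℚ) (P : K[X]) (n : ℕ) : (pc π P).coeff n = π (P.coeff n) := by
  unfold pc
  rw [Polynomial.finsetSum_coeff]
  simp only [Polynomial.coeff_monomial]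
  rw [Finset.sum_ite_eq' (Finset.range (P.natDegree + 1)) n (fun i => π (P.coeff i))]
  split_ifs with h
  · rfl
  · rw [Finset.mem_range, not_lt] at h
    rw [Polynomial.coeff_eq_zero_of_natDegree_lt (by omega), map_zero]

theorem natDegree_pc_le (π : K →ₗ[ℚ] ℚ) (P : K[X]) : (pc π P).natDegree ≤ P.natDegree := by
  rw [Polynomial.natDegree_le_iff_coeff_eq_zero]
  intro n hn
  rw [coeff_pc, Polynomial.coeff_eq_zero_of_natDegree_lt hn, map_zero]

theorem coe_pc (π : K →ₗ[ℚ] ℚ) (P Q : K[X]) (g : PowerSeries ℚ)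
    (h : (P : PowerSeries K) = (Q : PowerSeries K) * g.map (algebraMap ℚ K)) :
    ((pc π P : ℚ[X]) : PowerSeries ℚ) = (pc π Q : ℚ[X]) * g := by
  refine PowerSeries.ext fun n => ?_
  rw [Polynomial.coeff_coe, coeff_pc, PowerSeries.coeff_mul]
  have h1 := congrArg (PowerSeries.coeff n) h
  rw [Polynomial.coeff_coe, PowerSeries.coeff_mul] at h1
  rw [h1, map_sum]
  refine Finset.sum_congr rfl fun p _ => ?_
  rw [Polynomial.coeff_coe, Polynomial.coeff_coe, PowerSeries.coeff_map, coeff_pc, mul_comm,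
    ← Algebra.smul_def, map_smul, smul_eq_mul, mul_comm]

end RatL

/-- [RAT] -/
theorem rat : S_RAT.{w} := by
  intro K _ _ P Q g hPQ hP hQ h
  obtain ⟨π, hπ⟩ := RatL.exists_retract K
  set P0 := RatL.pc π P with hP0
  set Q0 := RatL.pc π Q with hQ0
  set φ := algebraMap ℚ K with hφ
  have h1 := RatL.coe_pc π P Q g h
  -- the identity `π P * Q = π Q * P`
  have h2 : P0.map φ * Q = Q0.map φ * P := by
    have h3 : (((P0.map φ : K[X])) : PowerSeries K) = (Q0.map φ : K[X]) * g.map φ := by
      have h4 := congrArg (PowerSeries.map φ) h1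
      rw [map_mul] at h4
      rw [← hP0, ← hQ0] at h4
      have e1 : ((P0.map φ : K[X]) : PowerSeries K) = PowerSeries.map φ (P0 : PowerSeries ℚ) := by
        refine PowerSeries.ext fun n => ?_
        rw [Polynomial.coeff_coe, Polynomial.coeff_map, PowerSeries.coeff_map,
          Polynomial.coeff_coe]
      have e2 : ((Q0.map φ : K[X]) : PowerSeries K) = PowerSeries.map φ (Q0 : PowerSeries ℚ) := by
        refine PowerSeries.ext fun n => ?_
        rw [Polynomial.coeff_coe, Polynomial.coeff_map, PowerSeries.coeff_map,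
          Polynomial.coeff_coe]
      rw [e1, e2, h4]
    apply Polynomial.coe_injective K
    rw [Polynomial.coe_mul, Polynomial.coe_mul, h3, h]
    ring
  have hP0ne : P.coeff 0 ≠ 0 := by rw [hP]; exact one_ne_zero
  have hPne : P ≠ 0 := fun h0 => hP0ne (by rw [h0, Polynomial.coeff_zero])
  have hQne : Q ≠ 0 := fun h0 => by rw [h0, Polynomial.coeff_zero] at hQ; exact zero_ne_one hQ
  have hP00 : (P0.map φ).coeff 0 = 1 := by
    rw [Polynomial.coeff_map, hP0, RatL.coeff_pc, hP, hπ, map_one]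
  have hQ00 : (Q0.map φ).coeff 0 = 1 := by
    rw [Polynomial.coeff_map, hQ0, RatL.coeff_pc, hQ, hπ, map_one]
  -- divisibilities
  have main : ∀ A B : K[X], A ≠ 0 → A.coeff 0 = 1 → B.coeff 0 = 1 → A ∣ B →
      B.natDegree ≤ A.natDegree → B = A := by
    intro A B hA0 hA hB hAB hdeg
    obtain ⟨C', hC⟩ := hAB
    have hB0 : B ≠ 0 := fun h0 => by rw [h0, Polynomial.coeff_zero] at hB; exact zero_ne_one hB
    have hC0 : C' ≠ 0 := fun h0 => hB0 (by rw [hC, h0, mul_zero])
    have hd : B.natDegree = A.natDegree + C'.natDegree := by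
      rw [hC, Polynomial.natDegree_mul hA0 hC0]
    have hCd : C'.natDegree = 0 := by omega
    rw [Polynomial.eq_C_of_natDegree_eq_zero hCd] at hC
    have h5 := congrArg (fun p => Polynomial.coeff p 0) hC
    simp only [Polynomial.coeff_mul_C] at h5
    rw [hB, hA, one_mul] at h5
    rw [hC, ← h5, Polynomial.C_1, mul_one]
  refine ⟨P0, Q0, ?_, ?_⟩
  · refine main P _ hPne hP hP00 ?_ ((Polynomial.natDegree_map_le).trans
      (RatL.natDegree_pc_le π P))
    have : P ∣ P0.map φ * Q := ⟨Q0.map φ, by rw [h2]; ring⟩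
    exact hPQ.dvd_of_dvd_mul_right this
  · refine main Q _ hQne hQ hQ00 ?_ ((Polynomial.natDegree_map_le).trans
      (RatL.natDegree_pc_le π Q))
    have : Q ∣ Q0.map φ * P := ⟨P0.map φ, by rw [← h2]; ring⟩
    exact hPQ.symm.dvd_of_dvd_mul_right this

end Pool.Agent.Helper3K9.ZF
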