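import Pool.Agent.Helper3K9.ZF.Defs

/-!
# Coefficient fields and reduced zeta functions: definitions
-/

set_option autoImplicit false

open CategoryTheory Limits MonoidalCategory Polynomial

universe v u w

namespace Pool.Agent.Helper3K9.ZF

open Pool.Agent.Y112.SR

variable {C : Type u} [Category.{v} C] [Preadditive C] [Linear ℚ C] [MonoidalCategory C]
  [SymmetricCategory C] {K : Type w} [Field K]

/-- The projector to the even part is a combination of realisations of endomorphisms with
coefficients in the subfield `F` of `K`. -/
def SpanIn (R : SuperRealisation C K) (M : C) (F : Subfield K) : Prop :=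
  ∃ (r : ℕ) (c : Fin r → K) (f : Fin r → (M ⟶ M)), (∀ i, c i ∈ F) ∧
    (∀ x ∈ evenPart R M, ∑ i, c i • (R.H.map (f i)).hom x = x) ∧
    ∀ x ∈ oddPart R M, ∑ i, c i • (R.H.map (f i)).hom x = 0

/-- The zeta function of the endomorphism `f`, the exponential of the series
`∑ str (f ^ n) / n * X ^ n`, is the quotient `P / Q` of the coprime polynomials `P` and `Q` with
rational coefficients and constant term `1`. -/
def ReducedZeta [CharZero K] (R : SuperRealisation C K) {M : C} (f : End M) (P Q : ℚ[X]) : Prop :=
  IsZeta (fun n => strace R (f ^ n : End M)) P Q ∧ IsCoprime P Q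

end Pool.Agent.Helper3K9.ZF
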