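import Pool.Agent.Helper3K9.ZF.Stm
import Pool.Agent.Helper3K9.ZF.Defs2

/-!
# One more step
-/

set_option autoImplicit false

open CategoryTheory Limits MonoidalCategory Polynomial

universe v u w

namespace Pool.Agent.Helper3K9.ZF

open Pool.Agent.Y112.SR

/-- RED (25 min, given LGD, SER, RAT). With `p0`, `p1` the reversed characteristic polynomials of
`T0`, `T1`, the series `g = p1 / p0` is rational by LGD and SER. Divide `p0` and `p1` by their greatest
common divisor `d`, normalised by `d(0) = 1`; RAT applies to the quotients, and they satisfy the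
identity of `IsZeta` (from `P = Q g` and `X g' = g * ∑ L n X ^ n`). -/
def S_RED : Prop :=
  ∀ (K : Type w) [Field K] [CharZero K] (V0 V1 : Type w) [AddCommGroup V0] [Module K V0]
    [Module.Finite K V0] [AddCommGroup V1] [Module K V1] [Module.Finite K V1]
    (T0 : Module.End K V0) (T1 : Module.End K V1),
    (∀ n, 1 ≤ n → ∃ q : ℚ, LinearMap.trace K V0 (T0 ^ n) - LinearMap.trace K V1 (T1 ^ n) = q) →
    ∃ P Q : ℚ[X], IsZeta (fun n => LinearMap.trace K V0 (T0 ^ n) - LinearMap.trace K V1 (T1 ^ n))
      P Q ∧ IsCoprime P Q ∧ P.natDegree ≤ Module.finrank K V1 ∧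
      Q.natDegree ≤ Module.finrank K V0

/-- The final statement. -/
def S_FIN2 : Prop :=
  ∀ {C : Type u} [Category.{v} C] [Preadditive C] [Linear ℚ C] [MonoidalCategory C]
    [MonoidalPreadditive C] [MonoidalLinear ℚ C] [SymmetricCategory C] [RightRigidCategory C]
    (_ : RationalUnit C) {K : Type w} [Field K] [CharZero K] (R : SuperRealisation C K) (M : C),
    (∀ f : End M, ∃ P Q, ReducedZeta R f P Q ∧ P.natDegree ≤ Module.finrank K (oddPart R M) ∧
      Q.natDegree ≤ Module.finrank K (evenPart R M)) ∧
    List.TFAE [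
      R.CPlus M,
      SpanC R M,
      CoprimeC R M,
      StableC R M,
      ∃ (f : End M) (P Q : ℚ[X]), ReducedZeta R f P Q ∧
        P.natDegree = Module.finrank K (oddPart R M) ∧
        Q.natDegree = Module.finrank K (evenPart R M)] ∧
    ∀ F : Subfield K, SpanIn R M F ↔ R.CPlus M

end Pool.Agent.Helper3K9.ZF
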