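import Pool.Agent.Helper3K9.ZF.Zet
import Pool.Agent.Helper3K9.ZF.Stm2

/-!
# ZF, leaf RED: every zeta function is a reduced quotient of rational polynomials
-/

set_option autoImplicit false

open CategoryTheory Limits MonoidalCategory Polynomial

universe v u w

namespace Pool.Agent.Helper3K9.ZF

open Pool.Agent.Y112.SR

namespace RedL

/-- division by the greatest common divisor, with constant terms `1` -/
theorem reduce {K : Type w} [Field K] {p q : K[X]} (hp : p.coeff 0 = 1) (hq : q.coeff 0 = 1) :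
    ∃ d r s : K[X], d ≠ 0 ∧ p = d * r ∧ q = d * s ∧ IsCoprime r s ∧ r.coeff 0 = 1 ∧
      s.coeff 0 = 1 ∧ r.natDegree ≤ p.natDegree ∧ s.natDegree ≤ q.natDegree := by
  classical
  have hp0 : p ≠ 0 := by
    rintro rfl
    rw [coeff_zero] at hp
    exact one_ne_zero hp.symm
  have hq0 : q ≠ 0 := by
    rintro rfl
    rw [coeff_zero] at hq
    exact one_ne_zero hq.symm
  obtain ⟨r, hr⟩ := EuclideanDomain.gcd_dvd_left p q
  obtain ⟨s, hs⟩ := EuclideanDomain.gcd_dvd_right p q
  have hb := EuclideanDomain.gcd_eq_gcd_ab p q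
  set d := EuclideanDomain.gcd p q with hd
  set A := EuclideanDomain.gcdA p q
  set B := EuclideanDomain.gcdB p q
  have hd0 : d ≠ 0 := by
    intro h
    rw [h, zero_mul] at hr
    exact hp0 hr
  have hcop : IsCoprime r s := by
    refine ⟨A, B, ?_⟩
    apply mul_left_cancel₀ hd0
    linear_combination -hb - A * hr - B * hs
  have cp : d.coeff 0 * r.coeff 0 = 1 := by rw [← mul_coeff_zero, ← hr, hp]
  have cq : d.coeff 0 * s.coeff 0 = 1 := by rw [← mul_coeff_zero, ← hs, hq]
  set c := d.coeff 0 with hc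
  have hc0 : c ≠ 0 := left_ne_zero_of_mul_eq_one cp
  have hCC : C c⁻¹ * C c = (1 : K[X]) := by rw [← C_mul, inv_mul_cancel₀ hc0, C_1]
  refine ⟨C c⁻¹ * d, C c * r, C c * s, ?_, ?_, ?_, ?_, ?_, ?_, ?_, ?_⟩
  · exact mul_ne_zero (C_ne_zero.2 (inv_ne_zero hc0)) hd0
  · rw [show C c⁻¹ * d * (C c * r) = C c⁻¹ * C c * (d * r) by ring, hCC, one_mul]
    exact hr
  · rw [show C c⁻¹ * d * (C c * s) = C c⁻¹ * C c * (d * s) by ring, hCC, one_mul]
    exact hs
  · exact (isCoprime_mul_unit_left (isUnit_C.2 hc0.isUnit) r s).2 hcop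
  · rw [coeff_C_mul, cp]
  · rw [coeff_C_mul, cq]
  · rw [natDegree_C_mul hc0, hr, natDegree_mul hd0 (fun h => by
      rw [h, mul_zero] at hr; exact hp0 hr)]
    exact Nat.le_add_left _ _
  · rw [natDegree_C_mul hc0, hs, natDegree_mul hd0 (fun h => by
      rw [h, mul_zero] at hs; exact hq0 hs)]
    exact Nat.le_add_left _ _

theorem degree_le {K V : Type w} [Field K] [AddCommGroup V] [Module K V] [Module.Finite K V]
    (T : Module.End K V) : T.charpoly.reverse.natDegree ≤ Module.finrank K V :=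
  (reverse_natDegree_le _).trans (LinearMap.charpoly_natDegree T).le

end RedL

open RedL in
/-- RED -/
theorem red (hL : S_LGD.{w}) (hS : S_SER.{w}) (hR : S_RAT.{w}) : S_RED.{w} := by
  intro K _ _ V0 V1 _ _ _ _ _ _ T0 T1 hq
  obtain ⟨a0, b0⟩ := hL K V0 T0
  obtain ⟨a1, b1⟩ := hL K V1 T1
  have d0 := degree_le T0
  have d1 := degree_le T1
  set p0 := T0.charpoly.reverse with hp0
  set p1 := T1.charpoly.reverse with hp1
  have hq' : ∀ n, ∃ q : ℚ, 1 ≤ n →
      LinearMap.trace K V0 (T0 ^ n) - LinearMap.trace K V1 (T1 ^ n) = q := by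
    intro n
    by_cases hn : 1 ≤ n
    · obtain ⟨q, h⟩ := hq n hn
      exact ⟨q, fun _ => h⟩
    · exact ⟨0, fun h => absurd h hn⟩
  choose L hLq using hq'
  set S0 : PowerSeries K := PowerSeries.mk fun n => if n = 0 then 0 else
    LinearMap.trace K V0 (T0 ^ n) with hS0
  set S1 : PowerSeries K := PowerSeries.mk fun n => if n = 0 then 0 else
    LinearMap.trace K V1 (T1 ^ n) with hS1
  have hSS : (PowerSeries.mk fun n => if n = 0 then 0 else
      LinearMap.trace K V0 (T0 ^ n) - LinearMap.trace K V1 (T1 ^ n)) = S0 - S1 := by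
    ext n
    rw [map_sub, hS0, hS1, PowerSeries.coeff_mk, PowerSeries.coeff_mk, PowerSeries.coeff_mk]
    split_ifs <;> simp
  have hSL : (PowerSeries.mk fun n => if n = 0 then 0 else (L n : K)) = S0 - S1 := by
    rw [← hSS]
    ext n
    rw [PowerSeries.coeff_mk, PowerSeries.coeff_mk]
    split_ifs with hn
    · rfl
    · rw [hLq n (Nat.one_le_iff_ne_zero.2 hn)]
  have c0 : PowerSeries.constantCoeff (p0 : PowerSeries K) = 1 := by
    rw [← PowerSeries.coeff_zero_eq_constantCoeff_apply, Polynomial.coeff_coe, a0]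
  have c1 : PowerSeries.constantCoeff (p1 : PowerSeries K) = 1 := by
    rw [← PowerSeries.coeff_zero_eq_constantCoeff_apply, Polynomial.coeff_coe, a1]
  have c0' : PowerSeries.constantCoeff (p0 : PowerSeries K) ≠ 0 := by rw [c0]; exact one_ne_zero
  have n0 : (p0 : PowerSeries K) ≠ 0 := by
    intro h
    rw [h, map_zero] at c0'
    exact c0' rfl
  set g : PowerSeries K := (p1 : PowerSeries K) * (p0 : PowerSeries K)⁻¹ with hg
  have hgp : (p0 : PowerSeries K) * g = p1 := by
    rw [hg, mul_comm, mul_assoc, PowerSeries.inv_mul_cancel _ c0', mul_one]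
  have hgc : PowerSeries.coeff 0 g = 1 := by
    have := congrArg PowerSeries.constantCoeff hgp
    rw [map_mul, c0, c1, one_mul] at this
    rw [PowerSeries.coeff_zero_eq_constantCoeff_apply, this]
  have b0' : PowerSeries.X * PowerSeries.derivative K (p0 : PowerSeries K) =
      -(p0 : PowerSeries K) * S0 := by
    rw [← b0, Polynomial.coe_mul, Polynomial.coe_X, PowerSeries.derivative_coe]
  have b1' : PowerSeries.X * PowerSeries.derivative K (p1 : PowerSeries K) =
      -(p1 : PowerSeries K) * S1 := by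
    rw [← b1, Polynomial.coe_mul, Polynomial.coe_X, PowerSeries.derivative_coe]
  have hder : PowerSeries.X * PowerSeries.derivative K g = g * (S0 - S1) := by
    apply mul_left_cancel₀ n0
    rw [← hgp] at b1'
    simp only [Derivation.leibniz, smul_eq_mul] at b1'
    linear_combination b1' - g * b0'
  obtain ⟨g0, hg0⟩ := hS K L g hgc (by rw [hSL]; exact hder)
  obtain ⟨d, r, s, hd, hr, hs, hcop, r0, s0, er, es⟩ := reduce a1 a0
  have hdS : (d : PowerSeries K) ≠ 0 := by
    intro h
    exact hd (Polynomial.coe_injective K (by rw [h, Polynomial.coe_zero]))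
  have hrs : (r : PowerSeries K) = (s : PowerSeries K) * g := by
    apply mul_left_cancel₀ hdS
    rw [← mul_assoc, ← Polynomial.coe_mul, ← Polynomial.coe_mul, ← hr, ← hs]
    exact hgp.symm
  obtain ⟨P, Q, hP, hQ⟩ := hR K r s g0 hcop r0 s0 (by rw [hg0]; exact hrs)
  refine ⟨P, Q, ⟨?_, ?_, ?_⟩, ?_, ?_, ?_⟩
  · have := congrArg (fun z => Polynomial.coeff z 0) hP
    simp only [coeff_map, r0] at this
    exact (algebraMap ℚ K).injective (by rw [this, map_one])
  · have := congrArg (fun z => Polynomial.coeff z 0) hQ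
    simp only [coeff_map, s0] at this
    exact (algebraMap ℚ K).injective (by rw [this, map_one])
  · rw [hSS]
    simp only [Polynomial.map_mul, Polynomial.map_sub, map_X, ← Polynomial.derivative_map, hP, hQ,
      Polynomial.coe_mul, Polynomial.coe_sub, Polynomial.coe_X, ← PowerSeries.derivative_coe]
    rw [hrs]
    simp only [Derivation.leibniz, smul_eq_mul]
    linear_combination (s : PowerSeries K) ^ 2 * hder
  · rw [← isCoprime_map (algebraMap ℚ K), hP, hQ]
    exact hcop
  · rw [← natDegree_map_eq_of_injective (algebraMap ℚ K).injective P, hP]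
    exact er.trans d1
  · rw [← natDegree_map_eq_of_injective (algebraMap ℚ K).injective Q, hQ]
    exact es.trans d0

end Pool.Agent.Helper3K9.ZF
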