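import Pool.Agent.Helper3K9.ZF.Stm

/-!
# The supertrace is the difference of the traces on the two parts
-/

set_option autoImplicit false

open CategoryTheory Limits MonoidalCategory Polynomial

universe v u w w'

namespace Pool.Agent.Helper3K9.ZF

open Pool.Agent.Y112.SR

namespace ResL

/-- The linear algebra: an involution `s` and an operator `g` which commutes with it. -/
lemma trace_split {K V : Type*} [Field K] [CharZero K] [AddCommGroup V] [Module K V]
    [Module.Finite K V] (s g : V →ₗ[K] V) (hs : ∀ x, s (s x) = x) (hc : ∀ x, s (g x) = g (s x))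
    (N0 N1 : Submodule K V) (h0 : ∀ x, x ∈ N0 ↔ s x = x) (h1 : ∀ x, x ∈ N1 ↔ s x = -x)
    (g0 : ∀ x ∈ N0, g x ∈ N0) (g1 : ∀ x ∈ N1, g x ∈ N1) :
    LinearMap.trace K V (s ∘ₗ g) =
      LinearMap.trace K N0 (g.restrict g0) - LinearMap.trace K N1 (g.restrict g1) := by
  have h2 : (2 : K) ≠ 0 := two_ne_zero
  set A : V →ₗ[K] V := (2 : K)⁻¹ • (g + s ∘ₗ g) with hA
  set B : V →ₗ[K] V := (2 : K)⁻¹ • (g - s ∘ₗ g) with hB
  have hAx : ∀ x, A x = (2 : K)⁻¹ • (g x + s (g x)) := fun x => by
    simp [hA]
  have hBx : ∀ x, B x = (2 : K)⁻¹ • (g x - s (g x)) := fun x => by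
    simp [hB]
  have hA0 : ∀ x, A x ∈ N0 := by
    intro x
    rw [h0, hAx, map_smul, map_add, hs, add_comm]
  have hB1 : ∀ x, B x ∈ N1 := by
    intro x
    rw [h1, hBx, map_smul, map_sub, hs, ← smul_neg, neg_sub]
  have e0 : LinearMap.trace K N0 (A.restrict fun x _ => hA0 x) = LinearMap.trace K V A :=
    LinearMap.trace_restrict_eq_of_forall_mem N0 A hA0
  have e1 : LinearMap.trace K N1 (B.restrict fun x _ => hB1 x) = LinearMap.trace K V B :=
    LinearMap.trace_restrict_eq_of_forall_mem N1 B hB1
  have f0 : A.restrict (fun x (_ : x ∈ N0) => hA0 x) = g.restrict g0 := by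
    ext x
    have hx : s (x : V) = x := (h0 _).1 x.2
    rw [LinearMap.restrict_apply, LinearMap.restrict_apply]
    simp only
    rw [hAx, hc, hx, ← two_smul K, smul_smul, inv_mul_cancel₀ h2, one_smul]
  have f1 : B.restrict (fun x (_ : x ∈ N1) => hB1 x) = g.restrict g1 := by
    ext x
    have hx : s (x : V) = -x := (h1 _).1 x.2
    rw [LinearMap.restrict_apply, LinearMap.restrict_apply]
    simp only
    rw [hBx, hc, hx, map_neg, sub_neg_eq_add, ← two_smul K, smul_smul, inv_mul_cancel₀ h2,
      one_smul]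
  have hAB : s ∘ₗ g = A - B := by
    ext x
    rw [LinearMap.sub_apply, hAx, hBx, ← smul_sub, LinearMap.comp_apply]
    have : g x + s (g x) - (g x - s (g x)) = (2 : K) • s (g x) := by
      rw [two_smul]
      abel
    rw [this, smul_smul, inv_mul_cancel₀ h2, one_smul]
  rw [← f0, ← f1, e0, e1, hAB, map_sub]

end ResL

/-- The supertrace is the difference of the traces on the even and the odd part. -/
theorem res : S_RES := by
  intro C _ _ _ _ _ K _ _ R M f
  haveI := R.finite M
  refine ResL.trace_split (R.par M).hom (R.H.map f).hom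
    (fun x => congrArg (fun z => z.hom x) (R.par_sq M))
    (fun x => congrArg (fun g => g.hom x) (R.par_natural f))
    (evenPart R M) (oddPart R M) (fun x => ?_) (fun x => ?_) (hom_even R f) (hom_odd R f)
  · rw [evenPart, LinearMap.mem_ker, LinearMap.sub_apply, LinearMap.id_apply, sub_eq_zero]
  · rw [oddPart, LinearMap.mem_ker, LinearMap.add_apply, LinearMap.id_apply,
      add_eq_zero_iff_eq_neg]

end Pool.Agent.Helper3K9.ZF
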