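import Pool.Agent.Helper3K9.ZF.Stm

/-!
# SER: a power series with rational logarithmic derivative and constant term 1 is rational
-/

set_option autoImplicit false

open Polynomial

universe w

namespace Pool.Agent.Helper3K9.ZF

namespace SerL

/-- the recursion for the coefficients -/
theorem coeff_rec {K : Type w} [Field K] [CharZero K] (L : ℕ → ℚ) (g : PowerSeries K)
    (h : PowerSeries.X * PowerSeries.derivative K g =
      g * PowerSeries.mk (fun n => if n = 0 then 0 else (L n : K))) (n : ℕ) :
    PowerSeries.coeff (n + 1) g * ((n : K) + 1) =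
      ∑ i ∈ Finset.range (n + 1), PowerSeries.coeff i g * (L (n + 1 - i) : K) := by
  have h1 := congrArg (PowerSeries.coeff (n + 1)) h
  rw [PowerSeries.coeff_succ_X_mul] at h1
  have h2 : PowerSeries.coeff n (PowerSeries.derivative K g) =
      PowerSeries.coeff (n + 1) g * ((n : K) + 1) := PowerSeries.coeff_derivative g n
  rw [h2] at h1
  rw [h1, PowerSeries.coeff_mul, Finset.Nat.sum_antidiagonal_eq_sum_range_succ
    (fun i j => PowerSeries.coeff i g *
      PowerSeries.coeff j (PowerSeries.mk (fun n => if n = 0 then 0 else (L n : K)))) (n + 1),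
    Finset.sum_range_succ]
  rw [PowerSeries.coeff_mk, if_pos (Nat.sub_self (n + 1)), mul_zero, add_zero]
  refine Finset.sum_congr rfl fun i hi => ?_
  have := Finset.mem_range.1 hi
  rw [PowerSeries.coeff_mk, if_neg (by omega)]

/-- the coefficients are rational -/
theorem rat {K : Type w} [Field K] [CharZero K] (L : ℕ → ℚ) (g : PowerSeries K)
    (h0 : PowerSeries.coeff 0 g = 1)
    (h : PowerSeries.X * PowerSeries.derivative K g =
      g * PowerSeries.mk (fun n => if n = 0 then 0 else (L n : K))) (n : ℕ) :
    ∃ q : ℚ, PowerSeries.coeff n g = (q : K) := by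
  induction n using Nat.strong_induction_on with
  | _ n ih =>
    rcases n with _ | n
    · exact ⟨1, by rw [h0, Rat.cast_one]⟩
    · choose! q hq using ih
      refine ⟨(∑ i ∈ Finset.range (n + 1), q i * L (n + 1 - i)) / ((n : ℚ) + 1), ?_⟩
      have h1 := coeff_rec L g h n
      have h2 : ((n : K) + 1) ≠ 0 := by exact_mod_cast (Nat.succ_ne_zero n)
      rw [← eq_div_iff h2] at h1
      rw [h1]
      push_cast
      congr 1
      refine Finset.sum_congr rfl fun i hi => ?_
      rw [hq i (Finset.mem_range.1 hi)]

end SerL

/-- [SER] -/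
theorem ser : S_SER.{w} := by
  intro K _ _ L g h0 h
  choose q hq using SerL.rat L g h0 h
  refine ⟨PowerSeries.mk q, ?_⟩
  refine PowerSeries.ext fun n => ?_
  rw [PowerSeries.coeff_map, PowerSeries.coeff_mk, hq n]
  simp

end Pool.Agent.Helper3K9.ZF
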