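import Pool.Agent.Helper3K9.ZF.Stm

/-!
# ZF, leaf STB: stable subspaces are graded if and only if the projector is in the span

The first section repeats `separate_two` of `Pool/Agent/TH133/PW/Kun.lean` (starting file), to keep
the imports small.
-/

set_option autoImplicit false

open CategoryTheory Limits MonoidalCategory Polynomial

universe v u w

namespace Pool.Agent.Helper3K9.ZF

open Pool.Agent.Y112.SR

namespace StbL

section Tominaga

variable {K V : Type*} [Field K] [AddCommGroup V] [Module K V]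

theorem tominaga_one {Am : Submodule K (Module.End K V)} {U : Submodule K V}
    (h2 : ∀ a ∈ Am, ∀ b ∈ Am, a * (1 - b) ∈ Am) (hU : ∀ b ∈ Am, ∀ y ∈ U, b y ∈ U)
    (h : ∀ y ∈ U, ∃ a ∈ Am, a y = y) (m : ℕ) :
    ∀ y : Fin m → V, (∀ i, y i ∈ U) → ∃ a ∈ Am, ∀ i, a (y i) = y i := by
  induction m with
  | zero => exact fun y _ => ⟨0, Submodule.zero_mem _, fun i => i.elim0⟩
  | succ m ih =>
    intro y hy
    obtain ⟨a₁, ha₁, h₁⟩ := h (y 0) (hy 0)
    obtain ⟨a₂, ha₂, h₂⟩ := ih (fun i => (1 - a₁) (y i.succ))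
      (fun i => Submodule.sub_mem _ (hy _) (hU _ ha₁ _ (hy _)))
    refine ⟨a₁ + a₂ * (1 - a₁), Submodule.add_mem _ ha₁ (h2 _ ha₂ _ ha₁), ?_⟩
    intro i
    refine Fin.cases ?_ (fun i => ?_) i
    · have e : (1 - a₁) (y 0) = 0 := by
        rw [LinearMap.sub_apply, Module.End.one_apply, h₁, sub_self]
      rw [LinearMap.add_apply, Module.End.mul_apply, e, map_zero, add_zero, h₁]
    · have := h₂ i
      rw [LinearMap.add_apply, Module.End.mul_apply, this, LinearMap.sub_apply,
        Module.End.one_apply, add_sub_cancel]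

theorem tominaga_one_uniform {Am : Submodule K (Module.End K V)} {U : Submodule K V}
    (hfg : U.FG) (h2 : ∀ a ∈ Am, ∀ b ∈ Am, a * (1 - b) ∈ Am)
    (hU : ∀ b ∈ Am, ∀ y ∈ U, b y ∈ U) (h : ∀ y ∈ U, ∃ a ∈ Am, a y = y) :
    ∃ a ∈ Am, ∀ y ∈ U, a y = y := by
  obtain ⟨m, s, hs⟩ := Submodule.fg_iff_exists_fin_generating_family.1 hfg
  have hsU : ∀ i, s i ∈ U := fun i => hs ▸ Submodule.subset_span ⟨i, rfl⟩
  obtain ⟨a, ha, h'⟩ := tominaga_one h2 hU h m s hsU
  refine ⟨a, ha, fun y hy => ?_⟩
  have : U ≤ LinearMap.eqLocus a 1 := by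
    rw [← hs, Submodule.span_le]
    rintro _ ⟨i, rfl⟩
    exact h' i
  exact this hy

theorem separate_two {A : Submodule K (Module.End K V)} (h1 : (1 : Module.End K V) ∈ A)
    (hmul : ∀ a ∈ A, ∀ b ∈ A, a * b ∈ A) {U U' : Submodule K V} (hfg : U.FG) (hfg' : U'.FG)
    (hU : ∀ b ∈ A, ∀ y ∈ U, b y ∈ U) (hU' : ∀ b ∈ A, ∀ y ∈ U', b y ∈ U')
    (h : ∀ y ∈ U, ∀ y' ∈ U', ∃ a ∈ A, a y = y ∧ a y' = 0) :
    ∃ c ∈ A, (∀ y ∈ U, c y = 0) ∧ ∀ y' ∈ U', c y' = y' := by
  -- the first step
  have step1 : ∀ y' ∈ U', ∃ a ∈ A, (∀ y ∈ U, a y = y) ∧ a y' = 0 := by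
    intro y' hy'
    obtain ⟨a, ha, hay⟩ := tominaga_one_uniform
      (Am := A ⊓ LinearMap.ker (LinearMap.applyₗ (R := K) (M := V) (M₂ := V) y')) (U := U) hfg
      (by
        rintro a ⟨ha, ha'⟩ b ⟨hb, hb'⟩
        have ha'' : a y' = 0 := ha'
        have hb'' : b y' = 0 := hb'
        refine ⟨hmul _ ha _ (Submodule.sub_mem _ h1 hb), ?_⟩
        change (a * (1 - b)) y' = 0
        rw [Module.End.mul_apply, LinearMap.sub_apply, Module.End.one_apply, hb'', sub_zero, ha''])
      (fun b hb y hy => hU b hb.1 y hy)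
      (by
        intro y hy
        obtain ⟨a, ha, h1, h2⟩ := h y hy y' hy'
        exact ⟨a, ⟨ha, h2⟩, h1⟩)
    exact ⟨a, ha.1, hay, ha.2⟩
  -- the second step
  obtain ⟨c, hc, hcy⟩ := tominaga_one_uniform
    (Am := A ⊓ ⨅ y ∈ U, LinearMap.ker (LinearMap.applyₗ (R := K) (M := V) (M₂ := V) y))
    (U := U') hfg'
    (by
      rintro a ⟨ha, ha'⟩ b ⟨hb, hb'⟩
      refine ⟨hmul _ ha _ (Submodule.sub_mem _ h1 hb), ?_⟩
      have ha'' : ∀ y ∈ U, a y = 0 := by simpa using ha'
      have hb'' : ∀ y ∈ U, b y = 0 := by simpa using hb'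
      have : ∀ y ∈ U, (a * (1 - b)) y = 0 := by
        intro y hy
        rw [Module.End.mul_apply, LinearMap.sub_apply, Module.End.one_apply, hb'' y hy, sub_zero,
          ha'' y hy]
      simpa using this)
    (fun b hb y hy => hU' b hb.1 y hy)
    (by
      intro y' hy'
      obtain ⟨a, ha, h2, h3⟩ := step1 y' hy'
      refine ⟨1 - a, ⟨Submodule.sub_mem _ h1 ha, ?_⟩, ?_⟩
      · have : ∀ y ∈ U, (1 - a) y = 0 := by
          intro y hy
          rw [LinearMap.sub_apply, Module.End.one_apply, h2 y hy, sub_self]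
        simpa using this
      · rw [LinearMap.sub_apply, Module.End.one_apply, h3, sub_zero])
  refine ⟨c, hc.1, ?_, hcy⟩
  have : ∀ y ∈ U, c y = 0 := by simpa using hc.2
  exact this

end Tominaga

section

variable {C : Type u} [Category.{v} C] [Preadditive C] [MonoidalCategory C]
  [SymmetricCategory C] {K : Type w} [Field K] (R : SuperRealisation C K) (M : C)

lemma par_par (x : R.H.obj M) : (R.par M).hom ((R.par M).hom x) = x :=
  congrArg (fun g => g.hom x) (R.par_sq M)

end

section

variable {C : Type u} [Category.{v} C] [Preadditive C] [Linear ℚ C] [MonoidalCategory C]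
  [SymmetricCategory C] {K : Type w} [Field K] (R : SuperRealisation C K) (M : C)

lemma mem_even {x : R.H.obj M} : x ∈ evenPart R M ↔ (R.par M).hom x = x := by
  unfold evenPart
  rw [LinearMap.mem_ker, LinearMap.sub_apply, LinearMap.id_apply, sub_eq_zero]

lemma mem_odd {x : R.H.obj M} : x ∈ oddPart R M ↔ (R.par M).hom x = -x := by
  unfold oddPart
  rw [LinearMap.mem_ker, LinearMap.add_apply, LinearMap.id_apply, add_eq_zero_iff_eq_neg]

lemma add_mem_even (x : R.H.obj M) : x + (R.par M).hom x ∈ evenPart R M := by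
  rw [mem_even, map_add, par_par, add_comm]

lemma sub_mem_odd (x : R.H.obj M) : x - (R.par M).hom x ∈ oddPart R M := by
  rw [mem_odd, map_sub, par_par, neg_sub]

lemma eq_zero_of_mem [CharZero K] {x : R.H.obj M} (h0 : x ∈ evenPart R M)
    (h1 : x ∈ oddPart R M) : x = 0 := by
  rw [mem_even] at h0
  rw [mem_odd, h0] at h1
  have h2 : (2 : K) • x = 0 := by
    rw [two_smul]
    nth_rewrite 1 [h1]
    exact neg_add_cancel x
  exact (smul_eq_zero.1 h2).resolve_left two_ne_zero

/-- an operator which is `1` on the even part and `0` on the odd part -/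
lemma two_smul_proj {e : Module.End K (R.H.obj M)} (h0 : ∀ x ∈ evenPart R M, e x = x)
    (h1 : ∀ x ∈ oddPart R M, e x = 0) (x : R.H.obj M) :
    (2 : K) • e x = x + (R.par M).hom x := by
  have a0 := h0 _ (add_mem_even R M x)
  have a1 := h1 _ (sub_mem_odd R M x)
  rw [map_add] at a0
  rw [map_sub, sub_eq_zero] at a1
  rw [two_smul]
  nth_rewrite 2 [a1]
  exact a0

/-- the span of the realisations of the endomorphisms -/
abbrev A : Submodule K (Module.End K (R.H.obj M)) :=
  Submodule.span K (Set.range fun f : M ⟶ M => (R.H.map f).hom)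

lemma one_mem : (1 : Module.End K (R.H.obj M)) ∈ A R M := by
  refine Submodule.subset_span ⟨𝟙 M, ?_⟩
  simp only [CategoryTheory.Functor.map_id, ModuleCat.hom_id]
  rfl

lemma mul_mem {a b : Module.End K (R.H.obj M)} (ha : a ∈ A R M) (hb : b ∈ A R M) :
    a * b ∈ A R M := by
  induction ha using Submodule.span_induction with
  | mem x hx =>
    obtain ⟨f, rfl⟩ := hx
    induction hb using Submodule.span_induction with
    | mem y hy =>
      obtain ⟨g, rfl⟩ := hy
      refine Submodule.subset_span ⟨g ≫ f, ?_⟩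
      simp only [Functor.map_comp, ModuleCat.hom_comp]
      rfl
    | zero => rw [mul_zero]; exact Submodule.zero_mem _
    | add y z _ _ hy hz => rw [mul_add]; exact Submodule.add_mem _ hy hz
    | smul c y _ hy => rw [mul_smul_comm]; exact Submodule.smul_mem _ _ hy
  | zero => rw [zero_mul]; exact Submodule.zero_mem _
  | add y z _ _ hy hz => rw [add_mul]; exact Submodule.add_mem _ hy hz
  | smul c y _ hy => rw [smul_mul_assoc]; exact Submodule.smul_mem _ _ hy

/-- subspaces which are stable under the endomorphisms are stable under the span -/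
lemma stable {N : Submodule K (R.H.obj M)}
    (h : ∀ f : M ⟶ M, ∀ x ∈ N, (R.H.map f).hom x ∈ N) {a : Module.End K (R.H.obj M)}
    (ha : a ∈ A R M) : ∀ x ∈ N, a x ∈ N := by
  intro x hx
  induction ha using Submodule.span_induction with
  | mem y hy =>
    obtain ⟨f, rfl⟩ := hy
    exact h f x hx
  | zero => exact N.zero_mem
  | add y z _ _ hy hz => exact N.add_mem hy hz
  | smul c y _ hy => exact N.smul_mem c hy

end

end StbL

open StbL in
/-- STB -/
theorem stb : S_STB.{v, u, w} := by
  intro C _ _ _ _ _ K _ _ R M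
  have hfin : Module.Finite K (R.H.obj M) := R.finite M
  have h20 : (2 : K) ≠ 0 := two_ne_zero
  constructor
  · intro hs
    have key : ∀ y ∈ evenPart R M, ∀ y' ∈ oddPart R M, ∃ a ∈ A R M, a y = y ∧ a y' = 0 := by
      intro y hy y' hy'
      let N : Submodule K (R.H.obj M) :=
        (A R M).map (LinearMap.applyₗ (R := K) (M := R.H.obj M) (M₂ := R.H.obj M) (y + y'))
      have hN : ∀ f : M ⟶ M, ∀ x ∈ N, (R.H.map f).hom x ∈ N := by
        rintro f _ ⟨a, ha, rfl⟩
        exact ⟨(R.H.map f).hom * a, mul_mem R M (Submodule.subset_span ⟨f, rfl⟩) ha, rfl⟩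
      have h1 : y + y' ∈ N := ⟨1, one_mem R M, rfl⟩
      have h2 := hs N hN _ h1
      rw [map_add, (mem_even R M).1 hy, (mem_odd R M).1 hy'] at h2
      have h3 : (2 : K) • y ∈ N := by
        have := N.add_mem h1 h2
        rwa [show y + y' + (y + -y') = (2 : K) • y by rw [two_smul]; abel] at this
      have h4 : y ∈ N := by
        have := N.smul_mem (2 : K)⁻¹ h3
        rwa [smul_smul, inv_mul_cancel₀ h20, one_smul] at this
      obtain ⟨a, ha, hay⟩ := h4
      have hay' : a (y + y') = y := hay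
      rw [map_add] at hay'
      have e0 : a y ∈ evenPart R M := stable R M (fun f => hom_even R f) ha y hy
      have e1 : a y' ∈ oddPart R M := stable R M (fun f => hom_odd R f) ha y' hy'
      have e2 : a y' = y - a y := eq_sub_of_add_eq' hay'
      have e3 : a y' = 0 :=
        eq_zero_of_mem R M (e2 ▸ (evenPart R M).sub_mem hy e0) e1
      refine ⟨a, ha, ?_, e3⟩
      rwa [e3, add_zero] at hay'
    obtain ⟨c, hc, hc0, hc1⟩ := separate_two (one_mem R M)
      (fun a ha b hb => mul_mem R M ha hb) (IsNoetherian.noetherian (evenPart R M))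
      (IsNoetherian.noetherian (oddPart R M))
      (fun b hb => stable R M (fun f => hom_even R f) hb)
      (fun b hb => stable R M (fun f => hom_odd R f) hb) key
    refine ⟨1 - c, Submodule.sub_mem _ (one_mem R M) hc, fun x hx => ?_, fun x hx => ?_⟩
    · rw [LinearMap.sub_apply, Module.End.one_apply, hc0 x hx, sub_zero]
    · rw [LinearMap.sub_apply, Module.End.one_apply, hc1 x hx, sub_self]
  · rintro ⟨e, he, he0, he1⟩ N hN x hx
    have h1 := two_smul_proj R M he0 he1 x
    have h2 : (R.par M).hom x = (2 : K) • e x - x := by rw [h1]; abel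
    rw [h2]
    exact N.sub_mem (N.smul_mem _ (stable R M hN he x hx)) hx

end Pool.Agent.Helper3K9.ZF
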