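import Pool.Agent.Helper3K9.ZF.Stm
import Pool.Agent.Y112.SC.Box

/-!
# The supertraces are rational and independent of the realisation
-/

set_option autoImplicit false
set_option backward.isDefEq.respectTransparency false
set_option backward.defeqAttrib.useBackward true

open CategoryTheory Limits MonoidalCategory Polynomial

universe v u w w'

namespace Pool.Agent.Helper3K9.ZF

open Pool.Agent.Y112.SR Pool.Agent.Y112.SC Pool.Agent.Y112.KD

open Functor.LaxMonoidal Functor.OplaxMonoidal

namespace TrqL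

/-- The realisation of the unit object is not zero. -/
lemma unit_ne {C : Type u} [Category.{v} C] [Preadditive C] [MonoidalCategory C]
    [SymmetricCategory C] {K : Type w} [Field K] (R : SuperRealisation C K) :
    𝟙 (R.H.obj (𝟙_ C)) ≠ 0 := by
  intro h2
  have h3 : 𝟙 (𝟙_ (ModuleCat.{w} K)) = 0 := by
    rw [← Functor.Monoidal.ε_η R.H, ← Category.id_comp (η R.H), h2, Limits.zero_comp, Limits.comp_zero]
  have h4 := LinearMap.congr_fun (congrArg ModuleCat.Hom.hom h3) (1 : K)
  exact one_ne_zero (α := K) h4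

lemma strace_eq {C : Type u} [Category.{v} C] [Preadditive C] [Linear ℚ C] [MonoidalCategory C]
    [MonoidalPreadditive C] [MonoidalLinear ℚ C] [SymmetricCategory C] [RightRigidCategory C]
    {K : Type w} [Field K] [CharZero K] (R : SuperRealisation C K) (M : C) (f : M ⟶ M) (q : ℚ)
    (hq : ptr (𝟙 (𝟙_ C) ⊗ₘ f) = q • 𝟙 (𝟙_ C)) : strace R f = q := by
  have h2 : (2 : K) ≠ 0 := two_ne_zero
  have h1 : R.H.map (ptr (𝟙 (𝟙_ C) ⊗ₘ f)) = (strace R f) • 𝟙 (R.H.obj (𝟙_ C)) := by
    rw [← PT_map, ← bx_map, PT_bx R h2, CategoryTheory.Functor.map_id]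
    rfl
  rw [hq, R_smul, CategoryTheory.Functor.map_id] at h1
  by_contra hne
  apply unit_ne R
  have h3 : (strace R f - (q : K)) • 𝟙 (R.H.obj (𝟙_ C)) = 0 := by
    rw [sub_smul, ← h1, sub_self]
  have h4 : strace R f - (q : K) ≠ 0 := sub_ne_zero.2 hne
  have h5 := congrArg (fun z => (strace R f - (q : K))⁻¹ • z) h3
  simpa only [smul_smul, inv_mul_cancel₀ h4, one_smul, smul_zero] using h5

end TrqL

/-- The supertrace of an endomorphism is rational and the same for all realisations. -/
theorem trq : S_TRQ := by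
  intro C _ _ _ _ _ _ _ _ hU K _ _ K' _ _ R R' M f
  obtain ⟨q, hq⟩ := hU (ptr (𝟙 (𝟙_ C) ⊗ₘ f))
  exact ⟨q, TrqL.strace_eq R M f q hq, TrqL.strace_eq R' M f q hq⟩

end Pool.Agent.Helper3K9.ZF
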