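import Pool.Agent.Helper3K9.ZF.Stm

/-!
# ZF, leaf ZET: a zeta function of the full degrees from coprime characteristic polynomials
-/

set_option autoImplicit false

open CategoryTheory Limits MonoidalCategory Polynomial

universe v u w

namespace Pool.Agent.Helper3K9.ZF

open Pool.Agent.Y112.SR

namespace ZetL

theorem isCoprime_reverse {K : Type w} [Field K] {p q : K[X]} (h : IsCoprime p q)
    (hp : p.reverse.coeff 0 = 1) : IsCoprime p.reverse q.reverse := by
  rw [isCoprime_iff_aeval_ne_zero_of_isAlgClosed K (AlgebraicClosure K)] at h ⊢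
  intro a
  by_contra hcon
  push Not at hcon
  obtain ⟨h1, h2⟩ := hcon
  have ha : a ≠ 0 := by
    rintro rfl
    rw [aeval_def, eval₂_at_zero, hp, map_one] at h1
    exact one_ne_zero h1
  letI : Invertible a⁻¹ := invertibleOfNonzero (inv_ne_zero ha)
  have e : ⅟(a⁻¹) = a := by rw [invOf_eq_inv, inv_inv]
  have g1 := (eval₂_reverse_eq_zero_iff (algebraMap K (AlgebraicClosure K)) a⁻¹ p).1
    (by rw [e]; exact h1)
  have g2 := (eval₂_reverse_eq_zero_iff (algebraMap K (AlgebraicClosure K)) a⁻¹ q).1
    (by rw [e]; exact h2)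
  rcases h a⁻¹ with h | h
  · exact h g1
  · exact h g2

theorem degree {K V : Type w} [Field K] [AddCommGroup V] [Module K V] [Module.Finite K V]
    {T : Module.End K V} (h : LinearMap.det T ≠ 0) :
    T.charpoly.reverse.natDegree = Module.finrank K V := by
  rw [reverse_natDegree, natTrailingDegree_eq_zero.2, Nat.sub_zero, LinearMap.charpoly_natDegree]
  right
  intro h0
  rw [LinearMap.det_eq_sign_charpoly_coeff, h0, mul_zero] at h
  exact h rfl

end ZetL

open ZetL in
/-- ZET -/
theorem zet (hL : S_LGD.{w}) (hS : S_SER.{w}) (hR : S_RAT.{w}) : S_ZET.{w} := by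
  intro K _ _ V0 V1 _ _ _ _ _ _ T0 T1 hq hc h0 h1
  obtain ⟨a0, b0⟩ := hL K V0 T0
  obtain ⟨a1, b1⟩ := hL K V1 T1
  have hcop := isCoprime_reverse hc a0
  have d0 := degree h0
  have d1 := degree h1
  set p0 := T0.charpoly.reverse with hp0
  set p1 := T1.charpoly.reverse with hp1
  have hq' : ∀ n, ∃ q : ℚ, 1 ≤ n →
      LinearMap.trace K V0 (T0 ^ n) - LinearMap.trace K V1 (T1 ^ n) = q := by
    intro n
    by_cases hn : 1 ≤ n
    · obtain ⟨q, h⟩ := hq n hn
      exact ⟨q, fun _ => h⟩
    · exact ⟨0, fun h => absurd h hn⟩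
  choose L hLq using hq'
  set S0 : PowerSeries K := PowerSeries.mk fun n => if n = 0 then 0 else
    LinearMap.trace K V0 (T0 ^ n) with hS0
  set S1 : PowerSeries K := PowerSeries.mk fun n => if n = 0 then 0 else
    LinearMap.trace K V1 (T1 ^ n) with hS1
  have hSS : (PowerSeries.mk fun n => if n = 0 then 0 else
      LinearMap.trace K V0 (T0 ^ n) - LinearMap.trace K V1 (T1 ^ n)) = S0 - S1 := by
    ext n
    rw [map_sub, hS0, hS1, PowerSeries.coeff_mk, PowerSeries.coeff_mk, PowerSeries.coeff_mk]
    split_ifs <;> simp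
  have hSL : (PowerSeries.mk fun n => if n = 0 then 0 else (L n : K)) = S0 - S1 := by
    rw [← hSS]
    ext n
    rw [PowerSeries.coeff_mk, PowerSeries.coeff_mk]
    split_ifs with hn
    · rfl
    · rw [hLq n (Nat.one_le_iff_ne_zero.2 hn)]
  have c0 : PowerSeries.constantCoeff (p0 : PowerSeries K) = 1 := by
    rw [← PowerSeries.coeff_zero_eq_constantCoeff_apply, Polynomial.coeff_coe, a0]
  have c1 : PowerSeries.constantCoeff (p1 : PowerSeries K) = 1 := by
    rw [← PowerSeries.coeff_zero_eq_constantCoeff_apply, Polynomial.coeff_coe, a1]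
  have c0' : PowerSeries.constantCoeff (p0 : PowerSeries K) ≠ 0 := by rw [c0]; exact one_ne_zero
  have n0 : (p0 : PowerSeries K) ≠ 0 := by
    intro h
    rw [h, map_zero] at c0'
    exact c0' rfl
  set g : PowerSeries K := (p1 : PowerSeries K) * (p0 : PowerSeries K)⁻¹ with hg
  have hgp : (p0 : PowerSeries K) * g = p1 := by
    rw [hg, mul_comm, mul_assoc, PowerSeries.inv_mul_cancel _ c0', mul_one]
  have hgc : PowerSeries.coeff 0 g = 1 := by
    have := congrArg PowerSeries.constantCoeff hgp
    rw [map_mul, c0, c1, one_mul] at this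
    rw [PowerSeries.coeff_zero_eq_constantCoeff_apply, this]
  have b0' : PowerSeries.X * PowerSeries.derivative K (p0 : PowerSeries K) =
      -(p0 : PowerSeries K) * S0 := by
    rw [← b0, Polynomial.coe_mul, Polynomial.coe_X, PowerSeries.derivative_coe]
  have b1' : PowerSeries.X * PowerSeries.derivative K (p1 : PowerSeries K) =
      -(p1 : PowerSeries K) * S1 := by
    rw [← b1, Polynomial.coe_mul, Polynomial.coe_X, PowerSeries.derivative_coe]
  have hder : PowerSeries.X * PowerSeries.derivative K g = g * (S0 - S1) := by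
    have e := congrArg (fun z => PowerSeries.X * PowerSeries.derivative K z) hgp
    simp only [Derivation.leibniz, smul_eq_mul] at e
    apply mul_left_cancel₀ n0
    rw [← hgp] at b1'
    simp only [Derivation.leibniz, smul_eq_mul] at b1'
    linear_combination b1' - g * b0'
  obtain ⟨g0, hg0⟩ := hS K L g hgc (by rw [hSL]; exact hder)
  obtain ⟨P, Q, hP, hQ⟩ := hR K p1 p0 g0 hcop.symm a1 a0 (by rw [hg0]; exact hgp.symm)
  refine ⟨P, Q, ⟨?_, ?_, ?_⟩, ?_, ?_, ?_⟩
  · have := congrArg (fun z => Polynomial.coeff z 0) hP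
    simp only [coeff_map, a1] at this
    exact (algebraMap ℚ K).injective (by rw [this, map_one])
  · have := congrArg (fun z => Polynomial.coeff z 0) hQ
    simp only [coeff_map, a0] at this
    exact (algebraMap ℚ K).injective (by rw [this, map_one])
  · rw [hSS]
    simp only [Polynomial.map_mul, Polynomial.map_sub, map_X, ← Polynomial.derivative_map, hP, hQ, Polynomial.coe_mul, Polynomial.coe_sub,
      Polynomial.coe_X, ← PowerSeries.derivative_coe]
    linear_combination (p0 : PowerSeries K) * b1' - (p1 : PowerSeries K) * b0'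
  · rw [← isCoprime_map (algebraMap ℚ K), hP, hQ]
    exact hcop.symm
  · rw [← natDegree_map_eq_of_injective (algebraMap ℚ K).injective P, hP, d1]
  · rw [← natDegree_map_eq_of_injective (algebraMap ℚ K).injective Q, hQ, d0]

end Pool.Agent.Helper3K9.ZF
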