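import Pool.Agent.Helper3K9.ZF.Fin
import Pool.Agent.Helper3K9.ZF.Red
import Pool.Agent.Helper3K9.ZF.Gen
import Pool.Agent.Helper3K9.ZF.Zet
import Pool.Agent.Helper3K9.ZF.Lgd
import Pool.Agent.Helper3K9.ZF.Ser
import Pool.Agent.Helper3K9.ZF.Rat
import Pool.Agent.Helper3K9.ZF.Bez
import Pool.Agent.Helper3K9.ZF.Stb
import Pool.Agent.Helper3K9.ZF.Res
import Pool.Agent.Helper3K9.ZF.Trq
import Pool.Agent.Helper36K9.ZF.Cop
import Pool.Agent.Helper36K9.ZF.Eas
import Pool.Agent.Helper36K9.ZF.Cpl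

/-!
# All steps together
-/

set_option autoImplicit false

universe v u w

namespace Pool.Agent.Helper3K9.ZF

theorem final : S_FIN2.{v, u, w} :=
  fin2 gen (zet lgd ser rat) res trq (bez (cmp lgd unq)) Pool.Agent.Helper36K9.ZF.cpl_
    stb Pool.Agent.Helper36K9.ZF.cop_ Pool.Agent.Helper36K9.ZF.eas_ (red lgd ser rat)

end Pool.Agent.Helper3K9.ZF
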