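import Pool.Agent.Helper3K9.ZF.Stm
import Pool.Agent.Y112.SR.Main

/-!
# The action on the even and the odd part: basic lemmas
-/

set_option autoImplicit false
set_option linter.unusedSectionVars false

open CategoryTheory Limits MonoidalCategory Polynomial

universe v u w w'

namespace Pool.Agent.Helper3K9.ZF

open Pool.Agent.Y112.SR

section

variable {C : Type u} [Category.{v} C] [Preadditive C] [Linear ℚ C] [MonoidalCategory C]
  [SymmetricCategory C] {K : Type w} [Field K]

lemma mem_even {R : SuperRealisation C K} {M : C} {x : R.H.obj M} :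
    x ∈ evenPart R M ↔ (R.par M).hom x = x := by
  rw [evenPart, LinearMap.mem_ker, LinearMap.sub_apply, LinearMap.id_apply, sub_eq_zero]

lemma mem_odd {R : SuperRealisation C K} {M : C} {x : R.H.obj M} :
    x ∈ oddPart R M ↔ (R.par M).hom x = -x := by
  rw [oddPart, LinearMap.mem_ker, LinearMap.add_apply, LinearMap.id_apply,
    add_eq_zero_iff_eq_neg]

lemma par_par (R : SuperRealisation C K) (M : C) (x : R.H.obj M) :
    (R.par M).hom ((R.par M).hom x) = x :=
  congrArg (fun g => g.hom x) (R.par_sq M)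

/-- Every vector is the sum of an even and an odd one. -/
lemma split [CharZero K] (R : SuperRealisation C K) (M : C) (x : R.H.obj M) :
    ∃ y ∈ evenPart R M, ∃ z ∈ oddPart R M, x = y + z := by
  refine ⟨(2 : K)⁻¹ • (x + (R.par M).hom x), ?_, (2 : K)⁻¹ • (x - (R.par M).hom x), ?_, ?_⟩
  · rw [mem_even, map_smul, map_add, par_par, add_comm]
  · rw [mem_odd, map_smul, map_sub, par_par, ← smul_neg, neg_sub]
  · rw [← smul_add, add_add_sub_cancel, ← two_smul K x, smul_smul, inv_mul_cancel₀ two_ne_zero,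
      one_smul]

lemma r0_coe (R : SuperRealisation C K) {M : C} (f : M ⟶ M) (x : evenPart R M) :
    ((r0 R f x : evenPart R M) : R.H.obj M) = (R.H.map f).hom x := rfl

lemma r1_coe (R : SuperRealisation C K) {M : C} (f : M ⟶ M) (x : oddPart R M) :
    ((r1 R f x : oddPart R M) : R.H.obj M) = (R.H.map f).hom x := rfl

lemma r0_id (R : SuperRealisation C K) (M : C) : r0 R (𝟙 M) = 1 := by
  apply LinearMap.ext
  intro x
  apply Subtype.ext
  rw [r0_coe, CategoryTheory.Functor.map_id]
  rfl

lemma r1_id (R : SuperRealisation C K) (M : C) : r1 R (𝟙 M) = 1 := by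
  apply LinearMap.ext
  intro x
  apply Subtype.ext
  rw [r1_coe, CategoryTheory.Functor.map_id]
  rfl

lemma r0_comp (R : SuperRealisation C K) {M : C} (f g : M ⟶ M) :
    r0 R (f ≫ g) = r0 R g * r0 R f := by
  apply LinearMap.ext
  intro x
  apply Subtype.ext
  rw [r0_coe, Functor.map_comp]
  rfl

lemma r1_comp (R : SuperRealisation C K) {M : C} (f g : M ⟶ M) :
    r1 R (f ≫ g) = r1 R g * r1 R f := by
  apply LinearMap.ext
  intro x
  apply Subtype.ext
  rw [r1_coe, Functor.map_comp]
  rfl

lemma r0_pow (R : SuperRealisation C K) {M : C} (f : End M) (n : ℕ) :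
    r0 R (f ^ n : End M) = r0 R f ^ n := by
  induction n with
  | zero => rw [pow_zero, pow_zero]; exact r0_id R M
  | succ n ih =>
    rw [pow_succ, End.mul_def, r0_comp, ih, ← pow_succ]

lemma r1_pow (R : SuperRealisation C K) {M : C} (f : End M) (n : ℕ) :
    r1 R (f ^ n : End M) = r1 R f ^ n := by
  induction n with
  | zero => rw [pow_zero, pow_zero]; exact r1_id R M
  | succ n ih =>
    rw [pow_succ, End.mul_def, r1_comp, ih, ← pow_succ]

lemma r0_add (R : SuperRealisation C K) {M : C} (f g : M ⟶ M) :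
    r0 R (f + g) = r0 R f + r0 R g := by
  apply LinearMap.ext
  intro x
  apply Subtype.ext
  rw [r0_coe, Functor.map_add]
  rfl

lemma r1_add (R : SuperRealisation C K) {M : C} (f g : M ⟶ M) :
    r1 R (f + g) = r1 R f + r1 R g := by
  apply LinearMap.ext
  intro x
  apply Subtype.ext
  rw [r1_coe, Functor.map_add]
  rfl

lemma r0_zsmul (R : SuperRealisation C K) {M : C} (n : ℤ) (f : M ⟶ M) :
    r0 R (n • f) = (n : K) • r0 R f := by
  apply LinearMap.ext
  intro x
  apply Subtype.ext
  rw [r0_coe, Functor.map_zsmul]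
  have h1 : ((n • R.H.map f : R.H.obj M ⟶ R.H.obj M)).hom = n • (R.H.map f).hom := by
    rfl
  rw [h1, LinearMap.smul_apply, ← Int.cast_smul_eq_zsmul K]
  rfl

lemma r1_zsmul (R : SuperRealisation C K) {M : C} (n : ℤ) (f : M ⟶ M) :
    r1 R (n • f) = (n : K) • r1 R f := by
  apply LinearMap.ext
  intro x
  apply Subtype.ext
  rw [r1_coe, Functor.map_zsmul]
  have h1 : ((n • R.H.map f : R.H.obj M ⟶ R.H.obj M)).hom = n • (R.H.map f).hom := by
    rfl
  rw [h1, LinearMap.smul_apply, ← Int.cast_smul_eq_zsmul K]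
  rfl

lemma r0_sum (R : SuperRealisation C K) {M : C} {ι : Type*} (s : Finset ι) (f : ι → (M ⟶ M)) :
    r0 R (∑ i ∈ s, f i) = ∑ i ∈ s, r0 R (f i) := by
  classical
  induction s using Finset.induction_on with
  | empty =>
    rw [Finset.sum_empty, Finset.sum_empty]
    have := r0_zsmul R (0 : ℤ) (𝟙 M)
    rwa [zero_smul, Int.cast_zero, zero_smul] at this
  | insert a s ha ih => rw [Finset.sum_insert ha, Finset.sum_insert ha, r0_add, ih]

lemma r1_sum (R : SuperRealisation C K) {M : C} {ι : Type*} (s : Finset ι) (f : ι → (M ⟶ M)) :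
    r1 R (∑ i ∈ s, f i) = ∑ i ∈ s, r1 R (f i) := by
  classical
  induction s using Finset.induction_on with
  | empty =>
    rw [Finset.sum_empty, Finset.sum_empty]
    have := r1_zsmul R (0 : ℤ) (𝟙 M)
    rwa [zero_smul, Int.cast_zero, zero_smul] at this
  | insert a s ha ih => rw [Finset.sum_insert ha, Finset.sum_insert ha, r1_add, ih]

end

end Pool.Agent.Helper3K9.ZF
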