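import Pool.Agent.Helper3K9.ZF.Stm3
import Pool.Agent.Helper3K9.ZF.Bas

/-!
# NCA
-/

set_option autoImplicit false

open CategoryTheory Limits MonoidalCategory Polynomial

universe v u w

namespace Pool.Agent.Helper3K9.ZF

open Pool.Agent.Y112.SR

theorem nca : S_NCA.{v, u, w} := by
  intro C _ _ _ _ _ K _ _ R M hS N0 N1 P0 P1 hN0 hN1 hP0 hP1 hN hN1e hP hP1o φ hφ
  obtain ⟨e, he, h0, h1⟩ := hS
  have key : ∀ T ∈ Submodule.span K (Set.range fun f : M ⟶ M => (R.H.map f).hom),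
      ∀ (x : N1) (y : P1), φ (Submodule.Quotient.mk x) = Submodule.Quotient.mk y →
        ∃ (hx : T (x : R.H.obj M) ∈ N1) (hy : T (y : R.H.obj M) ∈ P1),
          φ (Submodule.Quotient.mk ⟨T (x : R.H.obj M), hx⟩) =
            Submodule.Quotient.mk ⟨T (y : R.H.obj M), hy⟩ := by
    intro T hT
    induction hT using Submodule.span_induction with
    | mem T hT =>
      obtain ⟨f, rfl⟩ := hT
      intro x y hxy
      exact ⟨hN1 f x x.2, hP1 f y y.2, hφ f x _ y _ rfl rfl hxy⟩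
    | zero =>
      intro x y _
      refine ⟨by rw [LinearMap.zero_apply]; exact N1.zero_mem,
        by rw [LinearMap.zero_apply]; exact P1.zero_mem, ?_⟩
      have e1 : (⟨(0 : R.H.obj M →ₗ[K] R.H.obj M) (x : R.H.obj M),
          by rw [LinearMap.zero_apply]; exact N1.zero_mem⟩ : N1) = 0 := rfl
      have e2 : (⟨(0 : R.H.obj M →ₗ[K] R.H.obj M) (y : R.H.obj M),
          by rw [LinearMap.zero_apply]; exact P1.zero_mem⟩ : P1) = 0 := rfl
      rw [e1, e2, Submodule.Quotient.mk_zero, Submodule.Quotient.mk_zero, map_zero]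
    | add S T _ _ ihS ihT =>
      intro x y hxy
      obtain ⟨a1, b1, c1⟩ := ihS x y hxy
      obtain ⟨a2, b2, c2⟩ := ihT x y hxy
      refine ⟨N1.add_mem a1 a2, P1.add_mem b1 b2, ?_⟩
      have e1 : (⟨(S + T) (x : R.H.obj M), N1.add_mem a1 a2⟩ : N1) =
          ⟨S (x : R.H.obj M), a1⟩ + ⟨T (x : R.H.obj M), a2⟩ := rfl
      have e2 : (⟨(S + T) (y : R.H.obj M), P1.add_mem b1 b2⟩ : P1) =
          ⟨S (y : R.H.obj M), b1⟩ + ⟨T (y : R.H.obj M), b2⟩ := rfl
      rw [e1, e2, Submodule.Quotient.mk_add, Submodule.Quotient.mk_add, map_add, c1, c2]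
    | smul c T _ ihT =>
      intro x y hxy
      obtain ⟨a1, b1, c1⟩ := ihT x y hxy
      refine ⟨N1.smul_mem c a1, P1.smul_mem c b1, ?_⟩
      have e1 : (⟨(c • T) (x : R.H.obj M), N1.smul_mem c a1⟩ : N1) =
          c • ⟨T (x : R.H.obj M), a1⟩ := rfl
      have e2 : (⟨(c • T) (y : R.H.obj M), P1.smul_mem c b1⟩ : P1) =
          c • ⟨T (y : R.H.obj M), b1⟩ := rfl
      rw [e1, e2, Submodule.Quotient.mk_smul, Submodule.Quotient.mk_smul, map_smul, c1]
  apply le_antisymm hN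
  intro x hx
  obtain ⟨y, hy⟩ := Submodule.Quotient.mk_surjective (P0.submoduleOf P1)
    (φ (Submodule.Quotient.mk ⟨x, hx⟩))
  obtain ⟨a, b, c⟩ := key e he ⟨x, hx⟩ y hy.symm
  have e1 : (⟨e x, a⟩ : N1) = ⟨x, hx⟩ := Subtype.ext (h0 x (hN1e hx))
  have e2 : (⟨e (y : R.H.obj M), b⟩ : P1) = 0 := Subtype.ext (h1 y (hP1o y.2))
  have c' : φ (Submodule.Quotient.mk (⟨x, hx⟩ : N1)) = 0 := by
    rw [← e1]
    refine c.trans ?_
    rw [e2, Submodule.Quotient.mk_zero]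
  have c'' : (Submodule.Quotient.mk (⟨x, hx⟩ : N1) : N1 ⧸ N0.submoduleOf N1) = 0 := by
    rwa [LinearEquiv.map_eq_zero_iff] at c'
  rw [Submodule.Quotient.mk_eq_zero] at c''
  exact c''

end Pool.Agent.Helper3K9.ZF
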