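import Pool.Agent.Helper3K9.ZF.Stm3
import Pool.Agent.Helper3K9.ZF.Bas

/-!
# NCB: the lemma of Goursat
-/

set_option autoImplicit false

open CategoryTheory Limits MonoidalCategory Polynomial

universe v u w

namespace Pool.Agent.Helper3K9.ZF

open Pool.Agent.Y112.SR

namespace NcbL

variable {C : Type u} [Category.{v} C] [Preadditive C] [Linear ℚ C] [MonoidalCategory C]
  [SymmetricCategory C] {K : Type w} [Field K] [CharZero K]

/-- The projector to the even part. -/
noncomputable def ep (R : SuperRealisation C K) (M : C) : R.H.obj M →ₗ[K] R.H.obj M :=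
  (2 : K)⁻¹ • (LinearMap.id + (R.par M).hom)

/-- The projector to the odd part. -/
noncomputable def op (R : SuperRealisation C K) (M : C) : R.H.obj M →ₗ[K] R.H.obj M :=
  (2 : K)⁻¹ • (LinearMap.id - (R.par M).hom)

variable (R : SuperRealisation C K) (M : C)

lemma ep_apply (x : R.H.obj M) : ep R M x = (2 : K)⁻¹ • (x + (R.par M).hom x) := rfl

lemma op_apply (x : R.H.obj M) : op R M x = (2 : K)⁻¹ • (x - (R.par M).hom x) := rfl

lemma ep_add_op (x : R.H.obj M) : ep R M x + op R M x = x := by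
  rw [ep_apply, op_apply, ← smul_add, add_add_sub_cancel, ← two_smul K x, smul_smul,
    inv_mul_cancel₀ two_ne_zero, one_smul]

lemma ep_mem (x : R.H.obj M) : ep R M x ∈ evenPart R M := by
  rw [mem_even, ep_apply, map_smul, map_add, par_par, add_comm]

lemma op_mem (x : R.H.obj M) : op R M x ∈ oddPart R M := by
  rw [mem_odd, op_apply, map_smul, map_sub, par_par, ← smul_neg, neg_sub]

lemma ep_even {x : R.H.obj M} (hx : x ∈ evenPart R M) : ep R M x = x := by
  rw [ep_apply, mem_even.1 hx, ← two_smul K x, smul_smul, inv_mul_cancel₀ two_ne_zero, one_smul]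

lemma op_odd {x : R.H.obj M} (hx : x ∈ oddPart R M) : op R M x = x := by
  rw [op_apply, mem_odd.1 hx, sub_neg_eq_add, ← two_smul K x, smul_smul,
    inv_mul_cancel₀ two_ne_zero, one_smul]

lemma par_map (f : M ⟶ M) (x : R.H.obj M) :
    (R.par M).hom ((R.H.map f).hom x) = (R.H.map f).hom ((R.par M).hom x) :=
  congrArg (fun g => g.hom x) (R.par_natural f)

lemma ep_map (f : M ⟶ M) (x : R.H.obj M) :
    ep R M ((R.H.map f).hom x) = (R.H.map f).hom (ep R M x) := by
  rw [ep_apply, ep_apply, par_map, map_smul, map_add]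

lemma op_map (f : M ⟶ M) (x : R.H.obj M) :
    op R M ((R.H.map f).hom x) = (R.H.map f).hom (op R M x) := by
  rw [op_apply, op_apply, par_map, map_smul, map_sub]

end NcbL

open NcbL

theorem ncb : S_NCB.{v, u, w} := by
  intro C _ _ _ _ _ K _ _ R M hno N hN
  set N1 : Submodule K (R.H.obj M) := N.map (ep R M) with hN1
  set P1 : Submodule K (R.H.obj M) := N.map (op R M) with hP1
  set N0 : Submodule K (R.H.obj M) := N ⊓ evenPart R M with hN0
  set P0 : Submodule K (R.H.obj M) := N ⊓ oddPart R M with hP0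
  have hle : N0 ≤ N1 := fun x hx => ⟨x, hx.1, ep_even R M hx.2⟩
  have hle' : P0 ≤ P1 := fun x hx => ⟨x, hx.1, op_odd R M hx.2⟩
  have hN1e : N1 ≤ evenPart R M := by
    rintro _ ⟨x, _, rfl⟩; exact ep_mem R M x
  have hP1o : P1 ≤ oddPart R M := by
    rintro _ ⟨x, _, rfl⟩; exact op_mem R M x
  have sN1 : IsStable R M N1 := by
    rintro f _ ⟨x, hx, rfl⟩
    exact ⟨_, hN f x hx, ep_map R M f x⟩
  have sP1 : IsStable R M P1 := by
    rintro f _ ⟨x, hx, rfl⟩
    exact ⟨_, hN f x hx, op_map R M f x⟩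
  have sN0 : IsStable R M N0 := fun f x hx => ⟨hN f x hx.1, hom_even R f x hx.2⟩
  have sP0 : IsStable R M P0 := fun f x hx => ⟨hN f x hx.1, hom_odd R f x hx.2⟩
  -- the two maps
  let a : N →ₗ[K] N1 := (ep R M).restrict (fun x hx => ⟨x, hx, rfl⟩)
  let b : N →ₗ[K] P1 := (op R M).restrict (fun x hx => ⟨x, hx, rfl⟩)
  let α : N →ₗ[K] (N1 ⧸ N0.submoduleOf N1) := (N0.submoduleOf N1).mkQ ∘ₗ a
  let β : N →ₗ[K] (P1 ⧸ P0.submoduleOf P1) := (P0.submoduleOf P1).mkQ ∘ₗ b
  have ha : ∀ n : N, ((a n : N1) : R.H.obj M) = ep R M n := fun n => rfl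
  have hb : ∀ n : N, ((b n : P1) : R.H.obj M) = op R M n := fun n => rfl
  have hα : Function.Surjective α := by
    apply (Submodule.mkQ_surjective _).comp
    rintro ⟨_, ⟨x, hx, rfl⟩⟩
    exact ⟨⟨x, hx⟩, rfl⟩
  have hβ : Function.Surjective β := by
    apply (Submodule.mkQ_surjective _).comp
    rintro ⟨_, ⟨x, hx, rfl⟩⟩
    exact ⟨⟨x, hx⟩, rfl⟩
  have kα : ∀ n : N, α n = 0 ↔ ep R M n ∈ N := by
    intro n
    change (Submodule.Quotient.mk (a n) : N1 ⧸ N0.submoduleOf N1) = 0 ↔ _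
    rw [Submodule.Quotient.mk_eq_zero]
    change ((a n : N1) : R.H.obj M) ∈ N0 ↔ _
    rw [ha]
    exact ⟨fun h => h.1, fun h => ⟨h, ep_mem R M _⟩⟩
  have kβ : ∀ n : N, β n = 0 ↔ op R M n ∈ N := by
    intro n
    change (Submodule.Quotient.mk (b n) : P1 ⧸ P0.submoduleOf P1) = 0 ↔ _
    rw [Submodule.Quotient.mk_eq_zero]
    change ((b n : P1) : R.H.obj M) ∈ P0 ↔ _
    rw [hb]
    exact ⟨fun h => h.1, fun h => ⟨h, op_mem R M _⟩⟩
  have hker : LinearMap.ker α = LinearMap.ker β := by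
    ext n
    rw [LinearMap.mem_ker, LinearMap.mem_ker, kα, kβ]
    have h1 := ep_add_op R M (n : R.H.obj M)
    constructor
    · intro h
      rw [show op R M n = (n : R.H.obj M) - ep R M n from eq_sub_of_add_eq' h1]
      exact N.sub_mem n.2 h
    · intro h
      rw [show ep R M n = (n : R.H.obj M) - op R M n from eq_sub_of_add_eq h1]
      exact N.sub_mem n.2 h
  let φ : (N1 ⧸ N0.submoduleOf N1) ≃ₗ[K] (P1 ⧸ P0.submoduleOf P1) :=
    (α.quotKerEquivOfSurjective hα).symm ≪≫ₗ Submodule.quotEquivOfEq _ _ hker ≪≫ₗ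
      β.quotKerEquivOfSurjective hβ
  have hφ : ∀ n : N, φ (α n) = β n := by
    intro n
    have h1 : (α.quotKerEquivOfSurjective hα).symm (α n) = Submodule.Quotient.mk n := by
      rw [LinearEquiv.symm_apply_eq]
      rfl
    change (β.quotKerEquivOfSurjective hβ) (Submodule.quotEquivOfEq _ _ hker
      ((α.quotKerEquivOfSurjective hα).symm (α n))) = β n
    rw [h1]
    rfl
  have hfin := hno N0 N1 P0 P1 sN0 sN1 sP0 sP1 hle hN1e hle' hP1o φ (by
    intro f x x' y y' hx hy hxy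
    obtain ⟨n, hn⟩ : ∃ n : N, a n = x := by
      obtain ⟨n, hn, hn'⟩ := x.2
      exact ⟨⟨n, hn⟩, Subtype.ext hn'⟩
    have h1 : φ (Submodule.Quotient.mk x) = β n := by
      rw [← hn]; exact hφ n
    rw [hxy] at h1
    have h2 : (y : R.H.obj M) - op R M n ∈ P0 := by
      have h3 : (Submodule.Quotient.mk y : P1 ⧸ P0.submoduleOf P1) =
          Submodule.Quotient.mk (b n) := h1
      rw [Submodule.Quotient.eq] at h3
      exact h3
    have hfn : (R.H.map f).hom (n : R.H.obj M) ∈ N := hN f n n.2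
    have h4 : a ⟨_, hfn⟩ = x' := by
      apply Subtype.ext
      rw [ha, hx, ← hn, ha]
      exact ep_map R M f n
    rw [← h4]
    refine (hφ ⟨_, hfn⟩).trans ?_
    change (Submodule.Quotient.mk (b ⟨_, hfn⟩) : P1 ⧸ P0.submoduleOf P1) = _
    rw [eq_comm, Submodule.Quotient.eq]
    change (y' : R.H.obj M) - ((b ⟨_, hfn⟩ : P1) : R.H.obj M) ∈ P0
    rw [hb, hy]
    change (R.H.map f).hom (y : R.H.obj M) - op R M ((R.H.map f).hom (n : R.H.obj M)) ∈ P0
    rw [op_map, ← map_sub]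
    exact sP0 f _ h2)
  intro x hx
  have h1 : ep R M x ∈ N0 := by
    rw [hfin]; exact ⟨x, hx, rfl⟩
  have h2 : (R.par M).hom x = (2 : K) • ep R M x - x := by
    rw [ep_apply, smul_smul, mul_inv_cancel₀ two_ne_zero, one_smul, add_sub_cancel_left]
  rw [h2]
  exact N.sub_mem (N.smul_mem _ h1.1) hx

end Pool.Agent.Helper3K9.ZF
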