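import Pool.Agent.Helper3K9.ZF.All
import Pool.Agent.Helper3K9.ZF.Nca
import Pool.Agent.Helper3K9.ZF.Ncb

/-!
# The final theorem
-/

set_option autoImplicit false

open CategoryTheory Limits MonoidalCategory Polynomial

universe v u w

namespace Pool.Agent.Helper3K9.ZF

open Pool.Agent.Y112.SR

theorem final30 (nca : S_NCA.{v, u, w}) (ncb : S_NCB.{v, u, w}) {C : Type u} [Category.{v} C]
    [Preadditive C] [Linear ℚ C] [MonoidalCategory C]
    [MonoidalPreadditive C] [MonoidalLinear ℚ C] [SymmetricCategory C] [RightRigidCategory C]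
    (hC : RationalUnit C) {K : Type w} [Field K] [CharZero K] (R : SuperRealisation C K) (M : C) :
    (∀ f : End M, ∃ P Q, ReducedZeta R f P Q ∧ P.natDegree ≤ Module.finrank K (oddPart R M) ∧
      Q.natDegree ≤ Module.finrank K (evenPart R M)) ∧
    List.TFAE [
      R.CPlus M,
      SpanC R M,
      CoprimeC R M,
      StableC R M,
      NoCommonPart R M,
      ∃ (f : End M) (P Q : ℚ[X]), ReducedZeta R f P Q ∧
        P.natDegree = Module.finrank K (oddPart R M) ∧
        Q.natDegree = Module.finrank K (evenPart R M)] ∧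
    ∀ F : Subfield K, SpanIn R M F ↔ R.CPlus M := by
  obtain ⟨h1, h2, h3⟩ := final hC R M
  refine ⟨h1, ?_, h3⟩
  tfae_have 1 ↔ 2 := h2.out 0 1
  tfae_have 2 ↔ 3 := h2.out 1 2
  tfae_have 3 ↔ 4 := h2.out 2 3
  tfae_have 2 → 5 := nca R M
  tfae_have 5 → 4 := ncb R M
  tfae_have 4 ↔ 6 := h2.out 3 4
  tfae_finish

/-- **The final theorem.** -/
theorem final3 {C : Type u} [Category.{v} C]
    [Preadditive C] [Linear ℚ C] [MonoidalCategory C]
    [MonoidalPreadditive C] [MonoidalLinear ℚ C] [SymmetricCategory C] [RightRigidCategory C]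
    (hC : RationalUnit C) {K : Type w} [Field K] [CharZero K] (R : SuperRealisation C K) (M : C) :
    (∀ f : End M, ∃ P Q, ReducedZeta R f P Q ∧ P.natDegree ≤ Module.finrank K (oddPart R M) ∧
      Q.natDegree ≤ Module.finrank K (evenPart R M)) ∧
    List.TFAE [
      R.CPlus M,
      SpanC R M,
      CoprimeC R M,
      StableC R M,
      NoCommonPart R M,
      ∃ (f : End M) (P Q : ℚ[X]), ReducedZeta R f P Q ∧
        P.natDegree = Module.finrank K (oddPart R M) ∧
        Q.natDegree = Module.finrank K (evenPart R M)] ∧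
    ∀ F : Subfield K, SpanIn R M F ↔ R.CPlus M :=
  final30 nca ncb hC R M

end Pool.Agent.Helper3K9.ZF
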