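import Pool.Agent.Helper3K9.ZF.Defs2

/-!
# Common constituents of the even and the odd part, and the final conditions: definitions
-/

set_option autoImplicit false

open CategoryTheory Limits MonoidalCategory Polynomial

universe v u w

namespace Pool.Agent.Helper3K9.ZF

open Pool.Agent.Y112.SR

section Alg

variable {K : Type w} [Field K] {V : Type w} [AddCommGroup V] [Module K V]

/-- The subspace `N` is stable under the operators in `S`. -/
def StableUnder (S : Set (V →ₗ[K] V)) (N : Submodule K V) : Prop :=
  ∀ T ∈ S, ∀ x ∈ N, T x ∈ N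

/-- The isomorphism `φ : N1 / N0 → P1 / P0` commutes with the operators in `S`. -/
def Commutes (S : Set (V →ₗ[K] V)) {N0 N1 P0 P1 : Submodule K V}
    (φ : (N1 ⧸ N0.submoduleOf N1) ≃ₗ[K] (P1 ⧸ P0.submoduleOf P1)) : Prop :=
  ∀ T ∈ S, ∀ (x x' : N1) (y y' : P1), (x' : V) = T x → (y' : V) = T y →
    φ (Submodule.Quotient.mk x) = Submodule.Quotient.mk y →
    φ (Submodule.Quotient.mk x') = Submodule.Quotient.mk y'

/-- The subspaces `A` and `B` have no nonzero isomorphic subquotients as modules over the operators
in `S`: if `N0 ⊆ N1` are stable subspaces of `A`, `P0 ⊆ P1` stable subspaces of `B`, and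
`φ : N1 / N0 → P1 / P0` is an isomorphism commuting with the operators in `S`, then `N0 = N1`. -/
def NoCommon (S : Set (V →ₗ[K] V)) (A B : Submodule K V) : Prop :=
  ∀ N0 N1 P0 P1 : Submodule K V, StableUnder S N0 → StableUnder S N1 → StableUnder S P0 →
    StableUnder S P1 → N0 ≤ N1 → N1 ≤ A → P0 ≤ P1 → P1 ≤ B →
    ∀ φ : (N1 ⧸ N0.submoduleOf N1) ≃ₗ[K] (P1 ⧸ P0.submoduleOf P1), Commutes S φ → N0 = N1

end Alg

variable {C : Type u} [Category.{v} C] [Preadditive C] [Linear ℚ C] [MonoidalCategory C]
  [SymmetricCategory C] {K : Type w} [Field K]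

/-- The realisations of the endomorphisms of `M`. -/
def operators (R : SuperRealisation C K) (M : C) : Set (R.H.obj M →ₗ[K] R.H.obj M) :=
  Set.range fun f : M ⟶ M => (R.H.map f).hom

/-- The even part and the odd part have no nonzero isomorphic subquotients as modules over the
endomorphisms of `M`. -/
def NoCommonC (R : SuperRealisation C K) (M : C) : Prop :=
  NoCommon (operators R M) (evenPart R M) (oddPart R M)

/-- Every endomorphism has a zeta function `P / Q` (as in `ReducedZeta`), with `P` of degree at most
the dimension of the odd part and `Q` of degree at most the dimension of the even part. -/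
def ZetaBounded [CharZero K] (R : SuperRealisation C K) (M : C) : Prop :=
  ∀ f : End M, ∃ P Q, ReducedZeta R f P Q ∧ P.natDegree ≤ Module.finrank K (oddPart R M) ∧
    Q.natDegree ≤ Module.finrank K (evenPart R M)

/-- Some endomorphism has a zeta function `P / Q` (as in `ReducedZeta`) of full degrees: `P` has the
dimension of the odd part as degree, and `Q` the dimension of the even part. -/
def ZetaFull [CharZero K] (R : SuperRealisation C K) (M : C) : Prop :=
  ∃ (f : End M) (P Q : ℚ[X]), ReducedZeta R f P Q ∧
    P.natDegree = Module.finrank K (oddPart R M) ∧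
    Q.natDegree = Module.finrank K (evenPart R M)

end Pool.Agent.Helper3K9.ZF
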