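import Pool.Agent.Helper3K9.ZF.All3
import Pool.Agent.Helper3K9.ZF.Defs4

/-!
# The final theorem, in terms of the named conditions
-/

set_option autoImplicit false

open CategoryTheory Limits MonoidalCategory Polynomial

universe v u w

namespace Pool.Agent.Helper3K9.ZF

open Pool.Agent.Y112.SR

lemma noCommonC_iff {C : Type u} [Category.{v} C] [Preadditive C] [Linear ℚ C]
    [MonoidalCategory C] [SymmetricCategory C] {K : Type w} [Field K] (R : SuperRealisation C K)
    (M : C) : NoCommonC R M ↔ NoCommonPart R M := by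
  have hst : ∀ N : Submodule K (R.H.obj M), StableUnder (operators R M) N ↔ IsStable R M N := by
    intro N
    constructor
    · intro h f x hx
      exact h _ ⟨f, rfl⟩ x hx
    · rintro h _ ⟨f, rfl⟩ x hx
      exact h f x hx
  constructor
  · intro h N0 N1 P0 P1 h0 h1 h2 h3 h4 h5 h6 h7 φ hφ
    refine h N0 N1 P0 P1 ((hst _).2 h0) ((hst _).2 h1) ((hst _).2 h2) ((hst _).2 h3) h4 h5 h6 h7
      φ ?_
    rintro _ ⟨f, rfl⟩ x x' y y' hx hy hxy
    exact hφ f x x' y y' hx hy hxy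
  · intro h N0 N1 P0 P1 h0 h1 h2 h3 h4 h5 h6 h7 φ hφ
    refine h N0 N1 P0 P1 ((hst _).1 h0) ((hst _).1 h1) ((hst _).1 h2) ((hst _).1 h3) h4 h5 h6 h7
      φ ?_
    intro f x x' y y' hx hy hxy
    exact hφ _ ⟨f, rfl⟩ x x' y y' hx hy hxy

/-- **The final theorem.** -/
theorem final4 {C : Type u} [Category.{v} C]
    [Preadditive C] [Linear ℚ C] [MonoidalCategory C]
    [MonoidalPreadditive C] [MonoidalLinear ℚ C] [SymmetricCategory C] [RightRigidCategory C]
    (hC : RationalUnit C) {K : Type w} [Field K] [CharZero K] (R : SuperRealisation C K) (M : C) :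
    ZetaBounded R M ∧
    [R.CPlus M, SpanC R M, CoprimeC R M, StableC R M, NoCommonC R M, ZetaFull R M].TFAE ∧
    ∀ F : Subfield K, SpanIn R M F ↔ R.CPlus M := by
  obtain ⟨h1, h2, h3⟩ := final3 hC R M
  refine ⟨h1, ?_, h3⟩
  have h5 := noCommonC_iff R M
  tfae_have 1 ↔ 2 := h2.out 0 1
  tfae_have 2 ↔ 3 := h2.out 1 2
  tfae_have 3 ↔ 4 := h2.out 2 3
  tfae_have 4 ↔ 5 := (h2.out 3 4).trans h5.symm
  tfae_have 4 ↔ 6 := h2.out 3 5
  tfae_finish

end Pool.Agent.Helper3K9.ZF
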