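import Pool.Agent.Y112.SR.Defs

/-!
# Zeta functions of endomorphisms and the projector to the even part: definitions

`C` is a `ℚ`-linear symmetric monoidal category with a functor `R` to finite dimensional super vector
spaces over a field `K` (`SuperRealisation`), for example noncommutative Chow motives with rational
coefficients and periodic cyclic homology.
-/

set_option autoImplicit false

open CategoryTheory Limits MonoidalCategory Polynomial

universe v u w

namespace Pool.Agent.Helper3K9.ZF

open Pool.Agent.Y112.SR

/-- The endomorphisms of the unit object are the rational numbers. -/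
def RationalUnit (C : Type u) [Category.{v} C] [Preadditive C] [Linear ℚ C] [MonoidalCategory C] :
    Prop :=
  ∀ g : 𝟙_ C ⟶ 𝟙_ C, ∃ q : ℚ, g = q • 𝟙 (𝟙_ C)

variable {C : Type u} [Category.{v} C] [Preadditive C] [Linear ℚ C] [MonoidalCategory C]
  [SymmetricCategory C] {K : Type w} [Field K]

/-- The even part of the realisation of `M`. -/
def evenPart (R : SuperRealisation C K) (M : C) : Submodule K (R.H.obj M) :=
  LinearMap.ker ((R.par M).hom - LinearMap.id)

/-- The odd part of the realisation of `M`. -/
def oddPart (R : SuperRealisation C K) (M : C) : Submodule K (R.H.obj M) :=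
  LinearMap.ker ((R.par M).hom + LinearMap.id)

/-- The supertrace of the realisation of `f`: the trace on the even part minus the trace on the odd
part. -/
noncomputable def strace (R : SuperRealisation C K) {M : C} (f : M ⟶ M) : K :=
  LinearMap.trace K (R.H.obj M) (R.H.map f ≫ R.par M).hom

/-- The polynomials `P`, `Q` have constant term `1`, and `P / Q` is the exponential of the power
series `∑ L n / n * X ^ n`, `n ≥ 1`. (This is written without denominators: `X * (P / Q)'` is the
product of `P / Q` and the series `∑ L n * X ^ n`.) -/
def IsZeta [CharZero K] (L : ℕ → K) (P Q : ℚ[X]) : Prop :=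
  P.coeff 0 = 1 ∧ Q.coeff 0 = 1 ∧
    (((X * (derivative P * Q - P * derivative Q)).map (algebraMap ℚ K) : K[X]) : PowerSeries K) =
      (((P * Q).map (algebraMap ℚ K) : K[X]) : PowerSeries K) *
        PowerSeries.mk fun n => if n = 0 then 0 else L n

/-- Some endomorphism `f` of `M` has a zeta function, the exponential of the series
`∑ str (f ^ n) / n * X ^ n`, which is a quotient of coprime polynomials with rational coefficients
of the degrees `dim H^-(M)` (the numerator) and `dim H^+(M)` (the denominator). -/
def HasFullZeta [CharZero K] (R : SuperRealisation C K) (M : C) : Prop :=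
  ∃ (f : End M) (P Q : ℚ[X]), IsZeta (fun n => strace R (f ^ n : End M)) P Q ∧ IsCoprime P Q ∧
    P.natDegree = Module.finrank K (oddPart R M) ∧ Q.natDegree = Module.finrank K (evenPart R M)

/-- The projector to the even part is a combination of realisations of endomorphisms with
coefficients in `K`. -/
def SpanC (R : SuperRealisation C K) (M : C) : Prop :=
  ∃ e ∈ Submodule.span K (Set.range fun f : M ⟶ M => (R.H.map f).hom),
    (∀ x ∈ evenPart R M, e x = x) ∧ ∀ x ∈ oddPart R M, e x = 0

/-- Some endomorphism is killed on the even part and on the odd part by coprime polynomials with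
coefficients in `K`. -/
def CoprimeC (R : SuperRealisation C K) (M : C) : Prop :=
  ∃ (f : M ⟶ M) (A B : K[X]), IsCoprime A B ∧
    (∀ x ∈ evenPart R M, aeval (R.H.map f).hom A x = 0) ∧
    ∀ x ∈ oddPart R M, aeval (R.H.map f).hom B x = 0

/-- Every subspace of the realisation of `M` which is stable under the endomorphisms of `M` is the
sum of its even and its odd part. -/
def StableC (R : SuperRealisation C K) (M : C) : Prop :=
  ∀ N : Submodule K (R.H.obj M), (∀ f : M ⟶ M, ∀ x ∈ N, (R.H.map f).hom x ∈ N) →
    ∀ x ∈ N, (R.par M).hom x ∈ N

end Pool.Agent.Helper3K9.ZF
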