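import Pool.Agent.Helper3K9.ZF.Defs2

/-!
# Common constituents of the even and the odd part: definitions
-/

set_option autoImplicit false

open CategoryTheory Limits MonoidalCategory Polynomial

universe v u w

namespace Pool.Agent.Helper3K9.ZF

open Pool.Agent.Y112.SR

variable {C : Type u} [Category.{v} C] [Preadditive C] [Linear ℚ C] [MonoidalCategory C]
  [SymmetricCategory C] {K : Type w} [Field K]

/-- The subspace `N` of the realisation of `M` is stable under all endomorphisms of `M`. -/
def IsStable (R : SuperRealisation C K) (M : C) (N : Submodule K (R.H.obj M)) : Prop :=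
  ∀ f : M ⟶ M, ∀ x ∈ N, (R.H.map f).hom x ∈ N

/-- The even part and the odd part have no nonzero isomorphic subquotients as modules over the
endomorphisms of `M`: if `N0 ⊆ N1` are stable subspaces of the even part, `P0 ⊆ P1` stable subspaces
of the odd part, and `φ : N1 / N0 → P1 / P0` is an isomorphism commuting with all endomorphisms of
`M`, then `N0 = N1`. -/
def NoCommonPart (R : SuperRealisation C K) (M : C) : Prop :=
  ∀ N0 N1 P0 P1 : Submodule K (R.H.obj M), IsStable R M N0 → IsStable R M N1 →
    IsStable R M P0 → IsStable R M P1 → N0 ≤ N1 → N1 ≤ evenPart R M → P0 ≤ P1 →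
    P1 ≤ oddPart R M → ∀ φ : (N1 ⧸ N0.submoduleOf N1) ≃ₗ[K] (P1 ⧸ P0.submoduleOf P1),
    (∀ (f : M ⟶ M) (x x' : N1) (y y' : P1), (x' : R.H.obj M) = (R.H.map f).hom x →
      (y' : R.H.obj M) = (R.H.map f).hom y →
      φ (Submodule.Quotient.mk x) = Submodule.Quotient.mk y →
      φ (Submodule.Quotient.mk x') = Submodule.Quotient.mk y') → N0 = N1

end Pool.Agent.Helper3K9.ZF
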