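import Pool.Agent.Helper3K9.ZF.Spz
import Pool.Agent.Helper3K9.ZF.Stm2

/-!
# The assembly
-/

set_option autoImplicit false
set_option linter.unusedSectionVars false

open CategoryTheory Limits MonoidalCategory Polynomial

universe v u w

namespace Pool.Agent.Helper3K9.ZF

open Pool.Agent.Y112.SR

variable {C : Type u} [Category.{v} C] [Preadditive C] [Linear ℚ C] [MonoidalCategory C]
  [SymmetricCategory C] {K : Type w} [Field K]

lemma spanC_of_spanIn {R : SuperRealisation C K} {M : C} {F : Subfield K} (h : SpanIn R M F) :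
    SpanC R M := by
  obtain ⟨r, c, f, -, h0, h1⟩ := h
  refine ⟨∑ i, c i • (R.H.map (f i)).hom, Submodule.sum_mem _ fun i _ =>
    Submodule.smul_mem _ _ (Submodule.subset_span ⟨f i, rfl⟩), fun x hx => ?_, fun x hx => ?_⟩
  · rw [LinearMap.sum_apply]; exact h0 x hx
  · rw [LinearMap.sum_apply]; exact h1 x hx

/-- The projector as the realisation of an endomorphism. -/
lemma exists_of_cplus [CharZero K] {R : SuperRealisation C K} {M : C} (h : R.CPlus M) :
    ∃ f : M ⟶ M, (∀ x ∈ evenPart R M, (R.H.map f).hom x = x) ∧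
      ∀ x ∈ oddPart R M, (R.H.map f).hom x = 0 := by
  obtain ⟨f, hf⟩ := h
  have h1 : ∀ x : R.H.obj M, (2 : K) • (R.H.map f).hom x = x + (R.par M).hom x := by
    intro x
    have := congrArg (fun g => g.hom x) hf
    exact this
  refine ⟨f, fun x hx => ?_, fun x hx => ?_⟩
  · have h2 := h1 x
    rw [mem_even.1 hx, ← two_smul K x] at h2
    exact smul_right_injective _ (two_ne_zero (α := K)) h2
  · have h2 := h1 x
    rw [mem_odd.1 hx, add_neg_cancel] at h2
    exact (smul_eq_zero.1 h2).resolve_left two_ne_zero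

lemma spanIn_of_cplus [CharZero K] {R : SuperRealisation C K} {M : C} (F : Subfield K)
    (h : R.CPlus M) : SpanIn R M F := by
  obtain ⟨f, h0, h1⟩ := exists_of_cplus h
  refine ⟨1, fun _ => 1, fun _ => f, fun _ => F.one_mem, fun x hx => ?_, fun x hx => ?_⟩
  · rw [Fin.sum_univ_one, one_smul]; exact h0 x hx
  · rw [Fin.sum_univ_one, one_smul]; exact h1 x hx

theorem fin2 (hGEN : S_GEN.{w}) (hZET : S_ZET.{w}) (hRES : S_RES.{v, u, w})
    (hTRQ : S_TRQ.{v, u, w, w}) (hBEZ : S_BEZ.{w}) (hCPL : S_CPL.{v, u, w})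
    (hSTB : S_STB.{v, u, w}) (hCOP : S_COP.{v, u, w}) (hEAS : S_EAS.{v, u, w})
    (hRED : S_RED.{w}) : S_FIN2.{v, u, w} := by
  intro C _ _ _ _ _ _ _ _ hU K _ _ R M
  have hfin := R.finite M
  have hspz := spz hGEN hZET hRES hTRQ hU R M
  have key : SpanC R M → R.CPlus M := fun h => cplus_of_zeta hBEZ hRES hCPL (hspz h)
  refine ⟨fun f => ?_, ?_, fun F => ⟨fun h => key (spanC_of_spanIn h), spanIn_of_cplus F⟩⟩
  · have h5 : (fun m => strace R (f ^ m : End M)) = fun m =>
        LinearMap.trace K (evenPart R M) (r0 R f ^ m) -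
          LinearMap.trace K (oddPart R M) (r1 R f ^ m) := by
      funext m
      rw [hRES R M (f ^ m : End M), r0_pow, r1_pow]
    obtain ⟨P, Q, h1, h2, h3, h4⟩ := hRED K (evenPart R M) (oddPart R M) (r0 R f) (r1 R f)
      (fun m _ => by
        obtain ⟨q, hq, -⟩ := hTRQ hU R R M (f ^ m : End M)
        exact ⟨q, by rw [← congrFun h5 m, hq]⟩)
    exact ⟨P, Q, ⟨by rw [h5]; exact h1, h2⟩, h3, h4⟩
  · tfae_have 1 → 3 := fun h => (hEAS R M h).1
    tfae_have 3 → 2 := hCOP R M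
    tfae_have 4 ↔ 2 := hSTB R M
    tfae_have 2 → 5 := by
      intro h
      obtain ⟨f, P, Q, h1, h2, h3, h4⟩ := hspz h
      exact ⟨f, P, Q, ⟨h1, h2⟩, h3, h4⟩
    tfae_have 5 → 1 := by
      rintro ⟨f, P, Q, ⟨h1, h2⟩, h3, h4⟩
      exact cplus_of_zeta hBEZ hRES hCPL ⟨f, P, Q, h1, h2, h3, h4⟩
    tfae_finish

end Pool.Agent.Helper3K9.ZF
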