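import Pool.Agent.Helper3K9.ZF.Bas

/-!
# From the span to a zeta function of full degree
-/

set_option autoImplicit false
set_option linter.unusedSectionVars false

open CategoryTheory Limits MonoidalCategory Polynomial

universe v u w w'

namespace Pool.Agent.Helper3K9.ZF

open Pool.Agent.Y112.SR

lemma coprime_const {K : Type w} [Field K] (a b : ℕ) : IsCoprime ((X - 1 : K[X]) ^ a) (X ^ b) := by
  apply IsCoprime.pow
  exact ⟨-1, 1, by ring⟩

/-- The characteristic polynomial of the identity. -/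
lemma charpoly_one' {K : Type w} [Field K] {V : Type w} [AddCommGroup V] [Module K V]
    [Module.Finite K V] : (1 : Module.End K V).charpoly = (X - 1) ^ Module.finrank K V := by
  rw [LinearMap.charpoly_def, LinearMap.toMatrix_one, Matrix.charpoly_one]
  rw [Module.finrank_eq_card_chooseBasisIndex]

lemma charpoly_zero' {K : Type w} [Field K] {V : Type w} [AddCommGroup V] [Module K V]
    [Module.Finite K V] : (0 : Module.End K V).charpoly = X ^ Module.finrank K V := by
  rw [LinearMap.charpoly_def, map_zero, Matrix.charpoly_zero]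
  rw [Module.finrank_eq_card_chooseBasisIndex]

variable {C : Type u} [Category.{v} C] [Preadditive C] [Linear ℚ C] [MonoidalCategory C]
  [SymmetricCategory C] {K : Type w} [Field K]

/-- Elements of the span as finite sums. -/
lemma exists_sum {R : SuperRealisation C K} {M : C} {e : R.H.obj M →ₗ[K] R.H.obj M}
    (he : e ∈ Submodule.span K (Set.range fun f : M ⟶ M => (R.H.map f).hom)) :
    ∃ (r : ℕ) (c : Fin r → K) (f : Fin r → (M ⟶ M)), e = ∑ i, c i • (R.H.map (f i)).hom := by
  obtain ⟨r, c, g, rfl⟩ := Submodule.mem_span_set'.1 he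
  choose f hf using fun i => (g i).2
  exact ⟨r, c, f, Finset.sum_congr rfl fun i _ => by rw [← hf i]⟩

theorem spz : S_GEN.{w} → S_ZET.{w} → S_RES.{v, u, w} → S_TRQ.{v, u, w, w} → S_SPZ.{v, u, w} := by
  intro hGEN hZET hRES hTRQ C _ _ _ _ _ _ _ _ hU K _ _ R M hS
  have hfin := R.finite M
  obtain ⟨e, he, he0, he1⟩ := hS
  obtain ⟨r, c, f, rfl⟩ := exists_sum he
  have e0 : ∑ i, c i • r0 R (f i) = 1 := by
    apply LinearMap.ext
    intro x
    apply Subtype.ext
    have h1 := he0 x x.2
    rw [LinearMap.sum_apply] at h1 ⊢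
    rw [Submodule.coe_sum]
    exact h1
  have e1 : ∑ i, c i • r1 R (f i) = 0 := by
    apply LinearMap.ext
    intro x
    apply Subtype.ext
    have h1 := he1 x x.2
    rw [LinearMap.sum_apply] at h1 ⊢
    rw [Submodule.coe_sum]
    exact h1
  obtain ⟨n, N, hcop, hd0, hd1⟩ := hGEN K (evenPart R M) (oddPart R M) r (fun i => r0 R (f i))
    (fun i => r1 R (f i)) c (by rw [e0, e1, charpoly_one', charpoly_zero']; exact coprime_const _ _)
  set g : End M := ∑ i, n i • f i + N • 𝟙 M with hg
  have g0 : r0 R g = ∑ i, (n i : K) • r0 R (f i) + (N : K) • 1 := by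
    rw [hg]
    rw [r0_add, r0_sum, r0_zsmul, r0_id]
    simp only [r0_zsmul]
  have g1 : r1 R g = ∑ i, (n i : K) • r1 R (f i) + (N : K) • 1 := by
    rw [hg]
    rw [r1_add, r1_sum, r1_zsmul, r1_id]
    simp only [r1_zsmul]
  rw [← g0, ← g1] at hcop
  rw [← g0] at hd0
  rw [← g1] at hd1
  have htr : ∀ m : ℕ, strace R (g ^ m : End M) =
      LinearMap.trace K (evenPart R M) (r0 R g ^ m) -
        LinearMap.trace K (oddPart R M) (r1 R g ^ m) := by
    intro m
    rw [hRES R M (g ^ m : End M), r0_pow, r1_pow]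
  obtain ⟨P, Q, h1, h2, h3, h4⟩ := hZET K (evenPart R M) (oddPart R M) (r0 R g) (r1 R g)
    (fun m _ => by
      obtain ⟨q, hq, -⟩ := hTRQ hU R R M (g ^ m : End M)
      exact ⟨q, by rw [← htr, hq]⟩) hcop hd0 hd1
  refine ⟨g, P, Q, ?_, h2, h3, h4⟩
  have h5 : (fun m => strace R (g ^ m : End M)) = fun m =>
      LinearMap.trace K (evenPart R M) (r0 R g ^ m) -
        LinearMap.trace K (oddPart R M) (r1 R g ^ m) := funext htr
  rw [h5]
  exact h1

/-- From a zeta function of full degree to the projector. -/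
theorem cplus_of_zeta (hBEZ : S_BEZ.{w}) (hRES : S_RES.{v, u, w}) (hCPL : S_CPL.{v, u, w})
    [MonoidalPreadditive C] [MonoidalLinear ℚ C] [CharZero K] {R : SuperRealisation C K} {M : C}
    (h : HasFullZeta R M) : R.CPlus M := by
  have hfin := R.finite M
  obtain ⟨g, P, Q, h1, h2, h3, h4⟩ := h
  have h5 : (fun m => strace R (g ^ m : End M)) = fun m =>
      LinearMap.trace K (evenPart R M) (r0 R g ^ m) -
        LinearMap.trace K (oddPart R M) (r1 R g ^ m) := by
    funext m
    rw [hRES R M (g ^ m : End M), r0_pow, r1_pow]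
  rw [h5] at h1
  obtain ⟨h, ha, hb⟩ := hBEZ K (evenPart R M) (oddPart R M) (r0 R g) (r1 R g) P Q h1 h2 h3 h4
  exact hCPL R M g h ha hb

end Pool.Agent.Helper3K9.ZF
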