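import Pool.Agent.Helper3K9.ZF.Defs

/-!
# Zeta functions of endomorphisms and the projector to the even part: the steps

ZF: MP_eadf0f_ag. Mathlib and `Pool/Agent/Y112/SR/Defs.lean` only (plus the files named below).
-/

set_option autoImplicit false

open CategoryTheory Limits MonoidalCategory Polynomial

universe v u w w'

namespace Pool.Agent.Helper3K9.ZF

open Pool.Agent.Y112.SR

/-! ## Algebra (Mathlib only) -/

/-- RAT (15 min). Take a `ℚ`-linear map `π : K → ℚ` with `π 1 = 1` and apply it to the coefficients:
`π P = π Q * g`, so `π P * Q = π Q * P` in `K[X]`; `P` divides `π P`, the degree of `π P` is not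
larger, and the constant terms are `1` (that of `g` is `1` too). So `π P = P`, `π Q = Q`. -/
def S_RAT : Prop :=
  ∀ (K : Type w) [Field K] [CharZero K] (P Q : K[X]) (g : PowerSeries ℚ), IsCoprime P Q →
    P.coeff 0 = 1 → Q.coeff 0 = 1 →
    (P : PowerSeries K) = (Q : PowerSeries K) * g.map (algebraMap ℚ K) →
    ∃ P0 Q0 : ℚ[X], P0.map (algebraMap ℚ K) = P ∧ Q0.map (algebraMap ℚ K) = Q

/-- SER (15 min). The coefficients are determined recursively: `n * g n = ∑ g i * L (n - i)`,
`i < n`. -/
def S_SER : Prop :=
  ∀ (K : Type w) [Field K] [CharZero K] (L : ℕ → ℚ) (g : PowerSeries K),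
    PowerSeries.coeff 0 g = 1 →
    PowerSeries.X * PowerSeries.derivative K g =
      g * PowerSeries.mk (fun n => if n = 0 then 0 else (L n : K)) →
    ∃ g0 : PowerSeries ℚ, g0.map (algebraMap ℚ K) = g

/-- UNQ (15 min). The same recursion: a series with constant term `1` is determined by its
logarithmic derivative. -/
def S_UNQ : Prop :=
  ∀ (K : Type w) [Field K] [CharZero K] (S g h : PowerSeries K),
    PowerSeries.coeff 0 g = 1 → PowerSeries.coeff 0 h = 1 →
    PowerSeries.X * PowerSeries.derivative K g = g * S →
    PowerSeries.X * PowerSeries.derivative K h = h * S → g = h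

/-- LGD (20 min). The logarithmic derivative of the reversed characteristic polynomial
`det (1 - X T)`. For matrices `Matrix.charpolyRev` see `Pool/Agent/R401/Tr10.lean`,
`Pool/Agent/TH658/Eq/Newt.lean`, `Pool/Agent/Y709/Trace.lean` (`lg_charpolyRev`). -/
def S_LGD : Prop :=
  ∀ (K : Type w) [Field K] [CharZero K] (V : Type w) [AddCommGroup V] [Module K V]
    [Module.Finite K V] (T : Module.End K V),
    T.charpoly.reverse.coeff 0 = 1 ∧
    ((X * derivative T.charpoly.reverse : K[X]) : PowerSeries K) =
      - ((T.charpoly.reverse : K[X]) : PowerSeries K) *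
        PowerSeries.mk fun n => if n = 0 then 0 else LinearMap.trace K V (T ^ n)

/-- ZET (25 min, given LGD, SER, RAT). With `p0`, `p1` the reversed characteristic polynomials of
`T0` and `T1` (degrees `dim V0`, `dim V1` as the `T i` are invertible; coprime), the series
`g = p1 / p0` satisfies `X g' = g * ∑ (tr T0 ^ n - tr T1 ^ n) X ^ n`, so it is rational by SER, and
RAT gives `P = p1`, `Q = p0`. -/
def S_ZET : Prop :=
  ∀ (K : Type w) [Field K] [CharZero K] (V0 V1 : Type w) [AddCommGroup V0] [Module K V0]
    [Module.Finite K V0] [AddCommGroup V1] [Module K V1] [Module.Finite K V1]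
    (T0 : Module.End K V0) (T1 : Module.End K V1),
    (∀ n, 1 ≤ n → ∃ q : ℚ, LinearMap.trace K V0 (T0 ^ n) - LinearMap.trace K V1 (T1 ^ n) = q) →
    IsCoprime T0.charpoly T1.charpoly → LinearMap.det T0 ≠ 0 → LinearMap.det T1 ≠ 0 →
    ∃ P Q : ℚ[X], IsZeta (fun n => LinearMap.trace K V0 (T0 ^ n) - LinearMap.trace K V1 (T1 ^ n))
      P Q ∧ IsCoprime P Q ∧ P.natDegree = Module.finrank K V1 ∧ Q.natDegree = Module.finrank K V0

/-- CMP (15 min, given LGD, UNQ). With `p0`, `p1` as in ZET: `P * p0 = Q * p1`, so `Q` divides `p0`
and `P` divides `p1` in `K[X]`. -/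
def S_CMP : Prop :=
  ∀ (K : Type w) [Field K] [CharZero K] (V0 V1 : Type w) [AddCommGroup V0] [Module K V0]
    [Module.Finite K V0] [AddCommGroup V1] [Module K V1] [Module.Finite K V1]
    (T0 : Module.End K V0) (T1 : Module.End K V1) (P Q : ℚ[X]),
    IsZeta (fun n => LinearMap.trace K V0 (T0 ^ n) - LinearMap.trace K V1 (T1 ^ n)) P Q →
    IsCoprime P Q →
    Q.map (algebraMap ℚ K) ∣ T0.charpoly.reverse ∧ P.map (algebraMap ℚ K) ∣ T1.charpoly.reverse

/-- BEZ (25 min, given CMP). By CMP and the degrees (the constant terms are `1`) `p0 = Q` and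
`p1 = P`, so the characteristic polynomials are the reverses of `Q` and `P`; take `a`, `b` with
`a * Q.reverse + b * P.reverse = 1` and `h = b * P.reverse` (Cayley and Hamilton). -/
def S_BEZ : Prop :=
  ∀ (K : Type w) [Field K] [CharZero K] (V0 V1 : Type w) [AddCommGroup V0] [Module K V0]
    [Module.Finite K V0] [AddCommGroup V1] [Module K V1] [Module.Finite K V1]
    (T0 : Module.End K V0) (T1 : Module.End K V1) (P Q : ℚ[X]),
    IsZeta (fun n => LinearMap.trace K V0 (T0 ^ n) - LinearMap.trace K V1 (T1 ^ n)) P Q →
    IsCoprime P Q → P.natDegree = Module.finrank K V1 → Q.natDegree = Module.finrank K V0 →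
    ∃ h : ℚ[X], aeval T0 (h.map (algebraMap ℚ K)) = 1 ∧ aeval T1 (h.map (algebraMap ℚ K)) = 0

/-- TRF (15 min). The identity of power series has rational coefficients, so it does not depend on
the field. -/
def S_TRF : Prop :=
  ∀ (K : Type w) [Field K] [CharZero K] (K' : Type w') [Field K'] [CharZero K'] (L : ℕ → K)
    (L' : ℕ → K') (P Q : ℚ[X]), (∀ n, ∃ q : ℚ, L n = q ∧ L' n = q) → IsZeta L P Q → IsZeta L' P Q

/-- GEN (30 min). The resultant of the characteristic polynomials of `∑ x i • A0 i` and
`∑ x i • A1 i` (over `MvPolynomial (Fin r) K`) is a polynomial in `x`, not zero as it does not vanish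
at `c`; so it does not vanish at some integral point. Then choose `N` such that the two operators are
invertible (finitely many `N` are excluded); adding `N` does not change the coprimality. (Instead of
the resultant one can use the determinant of the operator `Y ↦ B0 Y - Y B1` on `Hom(V1, V0)`: it is
not zero if and only if the characteristic polynomials are coprime.) -/
def S_GEN : Prop :=
  ∀ (K : Type w) [Field K] [CharZero K] (V0 V1 : Type w) [AddCommGroup V0] [Module K V0]
    [Module.Finite K V0] [AddCommGroup V1] [Module K V1] [Module.Finite K V1] (r : ℕ)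
    (A0 : Fin r → Module.End K V0) (A1 : Fin r → Module.End K V1) (c : Fin r → K),
    IsCoprime (∑ i, c i • A0 i).charpoly (∑ i, c i • A1 i).charpoly →
    ∃ (n : Fin r → ℤ) (N : ℤ),
      IsCoprime (∑ i, (n i : K) • A0 i + (N : K) • 1).charpoly
        (∑ i, (n i : K) • A1 i + (N : K) • 1).charpoly ∧
      LinearMap.det (∑ i, (n i : K) • A0 i + (N : K) • (1 : Module.End K V0)) ≠ 0 ∧
      LinearMap.det (∑ i, (n i : K) • A1 i + (N : K) • (1 : Module.End K V1)) ≠ 0

/-! ## The realisation -/

section

variable {C : Type u} [Category.{v} C] [Preadditive C] [Linear ℚ C] [MonoidalCategory C]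
  [SymmetricCategory C] {K : Type w} [Field K]

lemma hom_even (R : SuperRealisation C K) {M : C} (f : M ⟶ M) :
    ∀ x ∈ evenPart R M, (R.H.map f).hom x ∈ evenPart R M := by
  intro x hx
  have h1 : (R.par M).hom x = x := by
    have := LinearMap.mem_ker.1 hx
    rwa [LinearMap.sub_apply, LinearMap.id_apply, sub_eq_zero] at this
  have h2 : (R.par M).hom ((R.H.map f).hom x) = (R.H.map f).hom ((R.par M).hom x) :=
    congrArg (fun g => g.hom x) (R.par_natural f)
  refine LinearMap.mem_ker.2 ?_
  rw [LinearMap.sub_apply, LinearMap.id_apply, h2, h1, sub_self]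

lemma hom_odd (R : SuperRealisation C K) {M : C} (f : M ⟶ M) :
    ∀ x ∈ oddPart R M, (R.H.map f).hom x ∈ oddPart R M := by
  intro x hx
  have h1 : (R.par M).hom x = -x := by
    have := LinearMap.mem_ker.1 hx
    rwa [LinearMap.add_apply, LinearMap.id_apply, add_eq_zero_iff_eq_neg] at this
  have h2 : (R.par M).hom ((R.H.map f).hom x) = (R.H.map f).hom ((R.par M).hom x) :=
    congrArg (fun g => g.hom x) (R.par_natural f)
  refine LinearMap.mem_ker.2 ?_
  rw [LinearMap.add_apply, LinearMap.id_apply, h2, h1, map_neg, neg_add_cancel]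

/-- The action of `f` on the even part. -/
noncomputable def r0 (R : SuperRealisation C K) {M : C} (f : M ⟶ M) :
    Module.End K (evenPart R M) := (R.H.map f).hom.restrict (hom_even R f)

/-- The action of `f` on the odd part. -/
noncomputable def r1 (R : SuperRealisation C K) {M : C} (f : M ⟶ M) :
    Module.End K (oddPart R M) := (R.H.map f).hom.restrict (hom_odd R f)

end

/-- RES (20 min). The supertrace is the difference of the traces on the two parts (they are
complementary, `x = (x + s x) / 2 + (x - s x) / 2`). -/
def S_RES : Prop :=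
  ∀ {C : Type u} [Category.{v} C] [Preadditive C] [Linear ℚ C] [MonoidalCategory C]
    [SymmetricCategory C] {K : Type w} [Field K] [CharZero K] (R : SuperRealisation C K) (M : C)
    (f : M ⟶ M), strace R f =
      LinearMap.trace K (evenPart R M) (r0 R f) - LinearMap.trace K (oddPart R M) (r1 R f)

/-- TRQ (20 min). The trace is rational, and the same for all realisations. Use `PT_map`, `PT_bx` of
`Pool/Agent/Y112/SC/Box.lean` with `Q = 𝟙_ C` (`R.H.map (ptr (𝟙 ⊗ₘ f))` is the multiplication with the
supertrace of `f`, and `ptr (𝟙 ⊗ₘ f)` is a rational number, and `R.H.obj (𝟙_ C)` is not zero). -/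
def S_TRQ : Prop :=
  ∀ {C : Type u} [Category.{v} C] [Preadditive C] [Linear ℚ C] [MonoidalCategory C]
    [MonoidalPreadditive C] [MonoidalLinear ℚ C] [SymmetricCategory C] [RightRigidCategory C]
    (_ : RationalUnit C) {K : Type w} [Field K] [CharZero K] {K' : Type w'} [Field K']
    [CharZero K'] (R : SuperRealisation C K) (R' : SuperRealisation C K') (M : C) (f : M ⟶ M),
    ∃ q : ℚ, strace R f = q ∧ strace R' f = q

/-- CPL (20 min). From a polynomial which is `1` on the even part and `0` on the odd part:
`aeval f h` in the `ℚ`-algebra `End M` (see `cplus_iff`, `R_smul` in `Pool/Agent/Y112/SR/Main.lean`;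
`R.H.map (aeval f h) = aeval (R.H.map f).hom h`). -/
def S_CPL : Prop :=
  ∀ {C : Type u} [Category.{v} C] [Preadditive C] [Linear ℚ C] [MonoidalCategory C]
    [MonoidalPreadditive C] [MonoidalLinear ℚ C] [SymmetricCategory C]
    {K : Type w} [Field K] [CharZero K] (R : SuperRealisation C K) (M : C) (f : M ⟶ M) (h : ℚ[X]),
    aeval (r0 R f) (h.map (algebraMap ℚ K)) = 1 → aeval (r1 R f) (h.map (algebraMap ℚ K)) = 0 →
    R.CPlus M

/-- STB (30 min). Stable subspaces: if all stable subspaces are graded then for `y` even and `y'` odd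
the subspace of all `φ (y + y')`, `φ` in the span, contains `y`, so `φ y = y`, `φ y' = 0` for some `φ`;
then use `separate_two` of `Pool/Agent/TH133/PW/Kun.lean` (the span is closed under composition). -/
def S_STB : Prop :=
  ∀ {C : Type u} [Category.{v} C] [Preadditive C] [Linear ℚ C] [MonoidalCategory C]
    [SymmetricCategory C] {K : Type w} [Field K] [CharZero K] (R : SuperRealisation C K) (M : C),
    StableC R M ↔ SpanC R M

/-- COP (15 min). With `a A + b B = 1` the operator `(b B)(H f)` is `1` on the even part and `0` on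
the odd part, and it is in the span. -/
def S_COP : Prop :=
  ∀ {C : Type u} [Category.{v} C] [Preadditive C] [Linear ℚ C] [MonoidalCategory C]
    [SymmetricCategory C] {K : Type w} [Field K] [CharZero K] (R : SuperRealisation C K) (M : C),
    CoprimeC R M → SpanC R M

/-- EAS (15 min). From the projector as the image of an endomorphism. -/
def S_EAS : Prop :=
  ∀ {C : Type u} [Category.{v} C] [Preadditive C] [Linear ℚ C] [MonoidalCategory C]
    [MonoidalPreadditive C] [MonoidalLinear ℚ C] [SymmetricCategory C]
    {K : Type w} [Field K] [CharZero K] (R : SuperRealisation C K) (M : C),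
    R.CPlus M → CoprimeC R M ∧ SpanC R M

/-- SPZ (30 min, given GEN, ZET, RES, TRQ). The projector is `∑ c i • H(f i)`; on the even part its
characteristic polynomial is `(X - 1) ^ dim`, on the odd part `X ^ dim`; apply GEN to the `r0 R (f i)`
and `r1 R (f i)`, take `f = ∑ n i • f i + N • 1` and ZET. -/
def S_SPZ : Prop :=
  ∀ {C : Type u} [Category.{v} C] [Preadditive C] [Linear ℚ C] [MonoidalCategory C]
    [MonoidalPreadditive C] [MonoidalLinear ℚ C] [SymmetricCategory C] [RightRigidCategory C]
    (_ : RationalUnit C) {K : Type w} [Field K] [CharZero K] (R : SuperRealisation C K) (M : C),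
    SpanC R M → HasFullZeta R M

/-- The final statement. -/
def S_FIN : Prop :=
  ∀ {C : Type u} [Category.{v} C] [Preadditive C] [Linear ℚ C] [MonoidalCategory C]
    [MonoidalPreadditive C] [MonoidalLinear ℚ C] [SymmetricCategory C] [RightRigidCategory C]
    (_ : RationalUnit C) {K : Type w} [Field K] [CharZero K] (R : SuperRealisation C K) (M : C),
    List.TFAE [R.CPlus M, SpanC R M, CoprimeC R M, StableC R M, HasFullZeta R M] ∧
    ∀ {K' : Type w'} [Field K'] [CharZero K'] (R' : SuperRealisation C K'), R.CPlus M →
      Module.finrank K (evenPart R M) ≤ Module.finrank K' (evenPart R' M) ∧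
      Module.finrank K (oddPart R M) ≤ Module.finrank K' (oddPart R' M) ∧
      List.TFAE [R'.CPlus M,
        Module.finrank K' (evenPart R' M) = Module.finrank K (evenPart R M),
        Module.finrank K' (oddPart R' M) = Module.finrank K (oddPart R M)]

end Pool.Agent.Helper3K9.ZF
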