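import Pool.Agent.Helper3K9.ZF.Stm2
import Pool.Agent.Helper3K9.ZF.Defs3

/-!
# Common constituents: the steps
-/

set_option autoImplicit false

open CategoryTheory Limits MonoidalCategory Polynomial

universe v u w

namespace Pool.Agent.Helper3K9.ZF

open Pool.Agent.Y112.SR

/-- NCA (20 min). The projector `e` in the span is compatible with `φ` (the pairs `(x, y)` with
`φ [x] = [y]` are closed under sums, multiples and the endomorphisms, hence under the span), so for
`x` in `N1` and `φ [x] = [y]` one gets `φ [x] = φ [e x] = [e y] = 0`. -/
def S_NCA : Prop :=
  ∀ {C : Type u} [Category.{v} C] [Preadditive C] [Linear ℚ C] [MonoidalCategory C]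
    [SymmetricCategory C] {K : Type w} [Field K] [CharZero K] (R : SuperRealisation C K) (M : C),
    SpanC R M → NoCommonPart R M

/-- NCB (30 min; the lemma of Goursat). For a stable subspace `N` let `N1`, `P1` be the images of `N`
under the projections to the even and the odd part, `N0`, `P0` its intersections with them, and
`φ [x] = [y]` for `x + y` in `N`. Then `N1 = N0`, that is, the even part of an element of `N` is in
`N`. -/
def S_NCB : Prop :=
  ∀ {C : Type u} [Category.{v} C] [Preadditive C] [Linear ℚ C] [MonoidalCategory C]
    [SymmetricCategory C] {K : Type w} [Field K] [CharZero K] (R : SuperRealisation C K) (M : C),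
    NoCommonPart R M → StableC R M

end Pool.Agent.Helper3K9.ZF
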